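import Pool.Agent.Y967.TD.B

/-! The `3x+d` maps along families of sequences: sizes. -/

set_option autoImplicit false

namespace Pool.Agent.Y967.TD

open Finset Filter Topology Pool.Agent.H499R2.CO Pool.Agent.W38.CR Pool.Agent.W38.AF Pool.Agent.Y967.CM

theorem PSpr.mono {ι : Type} {δ δ' : ℝ} {x k : ι → ℕ → ℤ} (h : PSpr δ x k) (h1 : δ' ≤ δ) : PSpr δ' x k := by
  classical
  intro ε hε
  obtain ⟨η, hη, N0, h2⟩ := h ε hε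
  refine ⟨η, hη, max N0 1, fun N hN w T hT P hP hc => ?_⟩
  have hN1 : (1 : ℝ) ≤ N := by exact_mod_cast (le_max_right _ _).trans hN
  exact h2 N ((le_max_left _ _).trans hN) w T
    (hT.trans (Real.rpow_le_rpow_of_exponent_le hN1 h1)) P hP hc

theorem aux_size {δ : ℝ} (hδ : 0 < δ) : ∀ᶠ N : ℕ in atTop,
    (∀ d : ℤ, |(d : ℝ)| ≤ (N : ℝ) ^ (δ / 8) →
      3 * 2 ^ ⌊δ / 4 / 2 * Real.log N⌋₊ * |d| ≤ 2 ^ ⌊δ / 2 * Real.log N⌋₊) ∧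
    (∀ i : ℕ, (i : ℝ) ≤ δ / 8 * Real.log N →
      (3 : ℤ) ^ (i + ⌊δ / 4 / 2 * Real.log N⌋₊) ≤ 2 ^ ⌊δ / 2 * Real.log N⌋₊) := by
  have l2 := Real.log_two_gt_d9
  have l2' := Real.log_two_lt_d9
  filter_upwards [eventually_ge_atTop 3, log_nat_tendsto.eventually_ge_atTop (100 / δ)] with N hN hlog
  rw [div_le_iff₀ hδ] at hlog
  set L := Real.log N with hL
  have hN0 : (0 : ℝ) < N := by positivity
  have hL0 : 0 < L := by nlinarith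
  set t0 := ⌊δ / 4 / 2 * L⌋₊ with ht0
  set s := ⌊δ / 2 * L⌋₊ with hs
  have h1 : (t0 : ℝ) ≤ δ / 4 / 2 * L := Nat.floor_le (by positivity)
  have h2 : δ / 2 * L < s + 1 := Nat.lt_floor_add_one _
  have e2 : ∀ j : ℕ, (2 : ℝ) ^ j = Real.exp (j * Real.log 2) := by
    intro j
    rw [Real.exp_nat_mul, Real.exp_log (by norm_num)]
  have e3 : ∀ j : ℕ, (3 : ℝ) ^ j = Real.exp (j * Real.log 3) := by
    intro j
    rw [Real.exp_nat_mul, Real.exp_log (by norm_num)]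
  have l3 : Real.log 3 ≤ 2 * Real.log 2 := by
    have : Real.log 3 ≤ Real.log 4 := Real.log_le_log (by norm_num) (by norm_num)
    have e : Real.log 4 = 2 * Real.log 2 := by
      rw [show (4 : ℝ) = 2 ^ 2 by norm_num, Real.log_pow]; norm_num
    linarith
  have l3' : Real.log 3 ≤ 8 / 5 * Real.log 2 := by
    have h3 : Real.log ((3 : ℝ) ^ 5) ≤ Real.log ((2 : ℝ) ^ 8) := Real.log_le_log (by norm_num) (by norm_num)
    rw [Real.log_pow, Real.log_pow] at h3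
    push_cast at h3
    linarith
  constructor
  · intro d hd
    have h3 : (3 * 2 ^ t0 * |(d : ℝ)| : ℝ) ≤ 2 ^ s := by
      have h4 : (3 : ℝ) ≤ Real.exp (2 * Real.log 2) := by
        have : Real.exp (2 * Real.log 2) = 4 := by
          have := e2 2
          push_cast at this
          rw [← this]; norm_num
        rw [this]; norm_num
      have h5 : |(d : ℝ)| ≤ Real.exp (δ / 8 * L) := by
        refine hd.trans (le_of_eq ?_)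
        rw [Real.rpow_def_of_pos hN0, mul_comm]
      rw [e2, e2]
      calc 3 * Real.exp (t0 * Real.log 2) * |(d : ℝ)|
          ≤ Real.exp (2 * Real.log 2) * Real.exp (t0 * Real.log 2) * Real.exp (δ / 8 * L) := by
            gcongr
        _ = Real.exp (2 * Real.log 2 + t0 * Real.log 2 + δ / 8 * L) := by
            rw [← Real.exp_add, ← Real.exp_add]
        _ ≤ Real.exp (s * Real.log 2) := by
            apply Real.exp_le_exp.2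
            have h6 : (t0 : ℝ) * Real.log 2 ≤ δ / 4 / 2 * L * Real.log 2 :=
              mul_le_mul_of_nonneg_right h1 (by linarith)
            have h7 : (δ / 2 * L - 1) * Real.log 2 ≤ s * Real.log 2 :=
              mul_le_mul_of_nonneg_right (by linarith) (by linarith)
            have h8 : δ / 8 * L ≤ δ * L * (3 / 16) * Real.log 2 := by
              have : 0 < δ * L := by positivity
              nlinarith
            nlinarith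
    have h4 : ((3 * 2 ^ t0 * |d| : ℤ) : ℝ) ≤ ((2 ^ s : ℤ) : ℝ) := by
      push_cast
      exact h3
    exact_mod_cast h4
  · intro i hi
    have h3 : ((3 : ℝ) ^ (i + t0)) ≤ 2 ^ s := by
      rw [e2, e3]
      apply Real.exp_le_exp.2
      push_cast
      have h6 : ((i : ℝ) + t0) * Real.log 3 ≤ (δ / 4 * L) * (8 / 5 * Real.log 2) := by
        apply mul_le_mul _ l3' (Real.log_nonneg (by norm_num)) (by positivity)
        linarith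
      have h7 : (δ / 2 * L - 1) * Real.log 2 ≤ s * Real.log 2 :=
        mul_le_mul_of_nonneg_right (by linarith) (by linarith)
      nlinarith
    have h4 : (((3 : ℤ) ^ (i + t0) : ℤ) : ℝ) ≤ ((2 ^ s : ℤ) : ℝ) := by
      push_cast
      exact h3
    exact_mod_cast h4

theorem le_floor_of {c : ℝ} {N t : ℕ} (h : (t : ℝ) ≤ c * Real.log N) : t ≤ ⌊c * Real.log N⌋₊ :=
  Nat.le_floor h

theorem abs_of_large {x M : ℤ} (h : M ≤ x ∨ x < -M) : M ≤ |x| := by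
  rcases h with h | h
  · exact h.trans (le_abs_self x)
  · have := neg_le_abs x
    linarith

open Classical in
/-- The range is sharp, uniformly for `|d| ≤ N ^ c`. -/
theorem sharp_d {δ : ℝ} (hδ : 0 < δ) {x : ℕ → ℤ} (h : Spr δ x) : ∃ c : ℝ, 0 < c ∧ ∀ ε : ℝ, 0 < ε →
    ∃ K : ℝ, 0 < K ∧ ∃ N₀ : ℕ, ∀ N : ℕ, N₀ ≤ N → ∀ d : ℤ, d % 2 = 1 → |(d : ℝ)| ≤ (N : ℝ) ^ c →
      (∀ i : ℕ, K * √ (Real.log N) ≤ i →
        (#{n ∈ Icc 1 N | ∃ t : ℕ, (t : ℝ) ≤ c * Real.log N ∧ (Tz d)^[t] (3 ^ i * x n) = (Tz d)^[t] (x n)} : ℝ)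
          ≤ ε * N) ∧
      (#{n ∈ Icc 1 N | ¬ ∃ r : ℕ, (r : ℝ) ≤ Real.exp (K * √ (Real.log N)) ∧ ∀ t : ℕ, (t : ℝ) ≤ c * Real.log N →
          (Tz d)^[t] (x n + d * r) ≠ (Tz d)^[t] (x n)} : ℝ) ≤ ε * N := by
  refine ⟨δ / 8, by positivity, fun ε hε => ?_⟩
  have hP : PSpr (δ / 4) (fun _ : Od => x) (fun d _ => d.1) := (PSpr_d h).mono (by linarith)
  obtain ⟨K1, hK1, N1, h1⟩ := far3_U (show 0 < δ / 4 by positivity) hP (fun w _ _ => w.2) (show 0 < ε / 2 by positivity)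
  obtain ⟨K2, hK2, N2, h2⟩ := farr_U (show 0 < δ / 4 by positivity) hP (fun w _ _ => w.2) (show 0 < ε / 2 by positivity)
  obtain ⟨N3, hN3⟩ := eventually_atTop.1 ((h.large hδ (show 0 < ε / 2 by positivity)).and (aux_size hδ))
  refine ⟨max K1 K2, lt_max_of_lt_left hK1, max (max N1 N2) N3, fun N hN d hd hdN => ?_⟩
  have hNN1 : N1 ≤ N := (le_max_left _ _).trans ((le_max_left _ _).trans hN)
  have hNN2 : N2 ≤ N := (le_max_right _ _).trans ((le_max_left _ _).trans hN)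
  obtain ⟨h3, h4, -⟩ := hN3 N ((le_max_right _ _).trans hN)
  have h5 := h4 d hdN
  have hd0 : d ≠ 0 := by rintro rfl; norm_num at hd
  have e8 : δ / 4 / 2 = δ / 8 := by ring
  have hLV : ∀ (n i : ℕ), (2 ^ ⌊δ / 2 * Real.log N⌋₊ ≤ x n ∨ x n < -2 ^ ⌊δ / 2 * Real.log N⌋₊) →
      LV d (x n) ⌊δ / 4 / 2 * Real.log N⌋₊ i := fun n i hn =>
    lv_large (h5.trans (abs_of_large hn)) hd0
  constructor
  · intro i hi
    have hi1 : K1 * √ (Real.log N) ≤ i :=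
      (mul_le_mul_of_nonneg_right (le_max_left _ _) (Real.sqrt_nonneg _)).trans hi
    have h6 := h1 N hNN1 ⟨d, hd⟩ i hi1
    have hsub : ({n ∈ Icc 1 N | ∃ t : ℕ, (t : ℝ) ≤ δ / 8 * Real.log N ∧
        (Tz d)^[t] (3 ^ i * x n) = (Tz d)^[t] (x n)} : Finset ℕ) ⊆
        {n ∈ Icc 1 N | LV d (x n) ⌊δ / 4 / 2 * Real.log N⌋₊ i ∧ ∃ t : ℕ, t ≤ ⌊δ / 4 / 2 * Real.log N⌋₊ ∧
        (Tz d)^[t] (3 ^ i * x n) = (Tz d)^[t] (x n)} ∪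
        {n ∈ Icc 1 N | ¬ (2 ^ ⌊δ / 2 * Real.log N⌋₊ ≤ x n ∨ x n < -2 ^ ⌊δ / 2 * Real.log N⌋₊)} := by
      intro n hn
      rw [mem_filter] at hn
      obtain ⟨hn1, t, ht, heq⟩ := hn
      rw [mem_union, mem_filter, mem_filter]
      by_cases hl : (2 ^ ⌊δ / 2 * Real.log N⌋₊ ≤ x n ∨ x n < -2 ^ ⌊δ / 2 * Real.log N⌋₊)
      · left
        exact ⟨hn1, hLV n i hl, t, le_floor_of (by rw [e8]; exact ht), heq⟩
      · right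
        exact ⟨hn1, hl⟩
    have h7 := (card_le_card hsub).trans (card_union_le _ _)
    have h8 : (#({n ∈ Icc 1 N | ∃ t : ℕ, (t : ℝ) ≤ δ / 8 * Real.log N ∧
        (Tz d)^[t] (3 ^ i * x n) = (Tz d)^[t] (x n)} : Finset ℕ) : ℝ) ≤
        (#{n ∈ Icc 1 N | LV d (x n) ⌊δ / 4 / 2 * Real.log N⌋₊ i ∧ ∃ t : ℕ, t ≤ ⌊δ / 4 / 2 * Real.log N⌋₊ ∧
        (Tz d)^[t] (3 ^ i * x n) = (Tz d)^[t] (x n)} : ℝ) +
        #{n ∈ Icc 1 N | ¬ (2 ^ ⌊δ / 2 * Real.log N⌋₊ ≤ x n ∨ x n < -2 ^ ⌊δ / 2 * Real.log N⌋₊)} := by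
      exact_mod_cast h7
    have h9 : (#{n ∈ Icc 1 N | LV d (x n) ⌊δ / 4 / 2 * Real.log N⌋₊ i ∧ ∃ t : ℕ, t ≤ ⌊δ / 4 / 2 * Real.log N⌋₊ ∧
        (Tz d)^[t] (3 ^ i * x n) = (Tz d)^[t] (x n)} : ℝ) ≤ ε / 2 * N := h6
    linarith
  · have h6 := h2 N hNN2 ⟨d, hd⟩
    have hexp : Real.exp (K2 * √ (Real.log N)) ≤ Real.exp (max K1 K2 * √ (Real.log N)) :=
      Real.exp_le_exp.2 (mul_le_mul_of_nonneg_right (le_max_right _ _) (Real.sqrt_nonneg _))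
    have hsub : ({n ∈ Icc 1 N | ¬ ∃ r : ℕ, (r : ℝ) ≤ Real.exp (max K1 K2 * √ (Real.log N)) ∧
        ∀ t : ℕ, (t : ℝ) ≤ δ / 8 * Real.log N → (Tz d)^[t] (x n + d * r) ≠ (Tz d)^[t] (x n)} : Finset ℕ) ⊆
        {n ∈ Icc 1 N | LV d (x n) ⌊δ / 4 / 2 * Real.log N⌋₊ 0 ∧ ¬ ∃ r : ℕ,
          (r : ℝ) ≤ Real.exp (K2 * √ (Real.log N)) ∧ ∀ t : ℕ, t ≤ ⌊δ / 4 / 2 * Real.log N⌋₊ →
          (Tz d)^[t] (x n + d * r) ≠ (Tz d)^[t] (x n)} ∪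
        {n ∈ Icc 1 N | ¬ (2 ^ ⌊δ / 2 * Real.log N⌋₊ ≤ x n ∨ x n < -2 ^ ⌊δ / 2 * Real.log N⌋₊)} := by
      intro n hn
      rw [mem_filter] at hn
      obtain ⟨hn1, hn2⟩ := hn
      rw [mem_union, mem_filter, mem_filter]
      by_cases hl : (2 ^ ⌊δ / 2 * Real.log N⌋₊ ≤ x n ∨ x n < -2 ^ ⌊δ / 2 * Real.log N⌋₊)
      · left
        refine ⟨hn1, hLV n 0 hl, ?_⟩
        rintro ⟨r, hr, hr2⟩
        exact hn2 ⟨r, hr.trans hexp, fun t ht => hr2 t (le_floor_of (by rw [e8]; exact ht))⟩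
      · right
        exact ⟨hn1, hl⟩
    have h7 := (card_le_card hsub).trans (card_union_le _ _)
    have h8 : (#({n ∈ Icc 1 N | ¬ ∃ r : ℕ, (r : ℝ) ≤ Real.exp (max K1 K2 * √ (Real.log N)) ∧
        ∀ t : ℕ, (t : ℝ) ≤ δ / 8 * Real.log N → (Tz d)^[t] (x n + d * r) ≠ (Tz d)^[t] (x n)} : Finset ℕ) : ℝ) ≤
        (#{n ∈ Icc 1 N | LV d (x n) ⌊δ / 4 / 2 * Real.log N⌋₊ 0 ∧ ¬ ∃ r : ℕ,
          (r : ℝ) ≤ Real.exp (K2 * √ (Real.log N)) ∧ ∀ t : ℕ, t ≤ ⌊δ / 4 / 2 * Real.log N⌋₊ →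
          (Tz d)^[t] (x n + d * r) ≠ (Tz d)^[t] (x n)} : ℝ) +
        #{n ∈ Icc 1 N | ¬ (2 ^ ⌊δ / 2 * Real.log N⌋₊ ≤ x n ∨ x n < -2 ^ ⌊δ / 2 * Real.log N⌋₊)} := by
      exact_mod_cast h7
    have h9 : (#{n ∈ Icc 1 N | LV d (x n) ⌊δ / 4 / 2 * Real.log N⌋₊ 0 ∧ ¬ ∃ r : ℕ,
          (r : ℝ) ≤ Real.exp (K2 * √ (Real.log N)) ∧ ∀ t : ℕ, t ≤ ⌊δ / 4 / 2 * Real.log N⌋₊ →
          (Tz d)^[t] (x n + d * r) ≠ (Tz d)^[t] (x n)} : ℝ) ≤ ε / 2 * N := h6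
    linarith

open Classical in
/-- The range is sharp for fixed starting values, uniformly in the starting value. -/
theorem sharp_b {δ : ℝ} (hδ : 0 < δ) {k : ℕ → ℤ} (h : Spr δ k) (hk : ∀ n, 1 ≤ n → k n % 2 = 1) :
    ∃ c : ℝ, 0 < c ∧ ∀ ε : ℝ, 0 < ε →
    ∃ K : ℝ, 0 < K ∧ ∃ N₀ : ℕ, ∀ N : ℕ, N₀ ≤ N → ∀ b : ℤ, b % 2 = 1 →
      (∀ i : ℕ, K * √ (Real.log N) ≤ i → (i : ℝ) ≤ c * Real.log N →
        (#{n ∈ Icc 1 N | IsCoprime b (k n) ∧ ∃ t : ℕ, (t : ℝ) ≤ c * Real.log N ∧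
          (Tz (k n))^[t] (3 ^ i * b) = (Tz (k n))^[t] b} : ℝ) ≤ ε * N) ∧
      (#{n ∈ Icc 1 N | IsCoprime b (k n) ∧ ¬ ∃ r : ℕ, (r : ℝ) ≤ Real.exp (K * √ (Real.log N)) ∧
        ∀ t : ℕ, (t : ℝ) ≤ c * Real.log N →
          (Tz (k n))^[t] (b + k n * r) ≠ (Tz (k n))^[t] b} : ℝ) ≤ ε * N := by
  refine ⟨δ / 8, by positivity, fun ε hε => ?_⟩
  have hP : PSpr (δ / 4) (fun (b : Od) _ => b.1) (fun _ => k) := (PSpr_b h).mono (by linarith)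
  obtain ⟨K1, hK1, N1, h1⟩ := far3_U (show 0 < δ / 4 by positivity) hP (fun _ => hk) (show 0 < ε / 2 by positivity)
  obtain ⟨K2, hK2, N2, h2⟩ := farr_U (show 0 < δ / 4 by positivity) hP (fun _ => hk) (show 0 < ε / 2 by positivity)
  obtain ⟨N3, hN3⟩ := eventually_atTop.1 ((h.large hδ (show 0 < ε / 2 by positivity)).and (aux_size hδ))
  refine ⟨max K1 K2, lt_max_of_lt_left hK1, max (max N1 N2) (max N3 1), fun N hN b hb => ?_⟩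
  have hNN1 : N1 ≤ N := (le_max_left _ _).trans ((le_max_left _ _).trans hN)
  have hNN2 : N2 ≤ N := (le_max_right _ _).trans ((le_max_left _ _).trans hN)
  have hN1 : 1 ≤ N := (le_max_right _ _).trans ((le_max_right _ _).trans hN)
  have hL0 : 0 ≤ Real.log N := Real.log_nonneg (by exact_mod_cast hN1)
  obtain ⟨h3, -, h4⟩ := hN3 N ((le_max_left _ _).trans ((le_max_right _ _).trans hN))
  have e8 : δ / 4 / 2 = δ / 8 := by ring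
  have hLV : ∀ (n i : ℕ), (i : ℝ) ≤ δ / 8 * Real.log N → IsCoprime b (k n) →
      (2 ^ ⌊δ / 2 * Real.log N⌋₊ ≤ k n ∨ k n < -2 ^ ⌊δ / 2 * Real.log N⌋₊) →
      LV (k n) b ⌊δ / 4 / 2 * Real.log N⌋₊ i := fun n i hi hc hn =>
    lv_gcd hc ((h4 i hi).trans (abs_of_large hn))
  constructor
  · intro i hi hi'
    have hi1 : K1 * √ (Real.log N) ≤ i :=
      (mul_le_mul_of_nonneg_right (le_max_left _ _) (Real.sqrt_nonneg _)).trans hi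
    have h6 := h1 N hNN1 ⟨b, hb⟩ i hi1
    have hsub : ({n ∈ Icc 1 N | IsCoprime b (k n) ∧ ∃ t : ℕ, (t : ℝ) ≤ δ / 8 * Real.log N ∧
        (Tz (k n))^[t] (3 ^ i * b) = (Tz (k n))^[t] b} : Finset ℕ) ⊆
        {n ∈ Icc 1 N | LV (k n) b ⌊δ / 4 / 2 * Real.log N⌋₊ i ∧ ∃ t : ℕ, t ≤ ⌊δ / 4 / 2 * Real.log N⌋₊ ∧
        (Tz (k n))^[t] (3 ^ i * b) = (Tz (k n))^[t] b} ∪
        {n ∈ Icc 1 N | ¬ (2 ^ ⌊δ / 2 * Real.log N⌋₊ ≤ k n ∨ k n < -2 ^ ⌊δ / 2 * Real.log N⌋₊)} := by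
      intro n hn
      rw [mem_filter] at hn
      obtain ⟨hn1, hc, t, ht, heq⟩ := hn
      rw [mem_union, mem_filter, mem_filter]
      by_cases hl : (2 ^ ⌊δ / 2 * Real.log N⌋₊ ≤ k n ∨ k n < -2 ^ ⌊δ / 2 * Real.log N⌋₊)
      · left
        exact ⟨hn1, hLV n i hi' hc hl, t, le_floor_of (by rw [e8]; exact ht), heq⟩
      · right
        exact ⟨hn1, hl⟩
    have h7 := (card_le_card hsub).trans (card_union_le _ _)
    have h8 : (#({n ∈ Icc 1 N | IsCoprime b (k n) ∧ ∃ t : ℕ, (t : ℝ) ≤ δ / 8 * Real.log N ∧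
        (Tz (k n))^[t] (3 ^ i * b) = (Tz (k n))^[t] b} : Finset ℕ) : ℝ) ≤
        (#{n ∈ Icc 1 N | LV (k n) b ⌊δ / 4 / 2 * Real.log N⌋₊ i ∧ ∃ t : ℕ, t ≤ ⌊δ / 4 / 2 * Real.log N⌋₊ ∧
        (Tz (k n))^[t] (3 ^ i * b) = (Tz (k n))^[t] b} : ℝ) +
        #{n ∈ Icc 1 N | ¬ (2 ^ ⌊δ / 2 * Real.log N⌋₊ ≤ k n ∨ k n < -2 ^ ⌊δ / 2 * Real.log N⌋₊)} := by
      exact_mod_cast h7
    have h9 : (#{n ∈ Icc 1 N | LV (k n) b ⌊δ / 4 / 2 * Real.log N⌋₊ i ∧ ∃ t : ℕ, t ≤ ⌊δ / 4 / 2 * Real.log N⌋₊ ∧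
        (Tz (k n))^[t] (3 ^ i * b) = (Tz (k n))^[t] b} : ℝ) ≤ ε / 2 * N := h6
    linarith
  · have h6 := h2 N hNN2 ⟨b, hb⟩
    have hexp : Real.exp (K2 * √ (Real.log N)) ≤ Real.exp (max K1 K2 * √ (Real.log N)) :=
      Real.exp_le_exp.2 (mul_le_mul_of_nonneg_right (le_max_right _ _) (Real.sqrt_nonneg _))
    have hsub : ({n ∈ Icc 1 N | IsCoprime b (k n) ∧ ¬ ∃ r : ℕ,
        (r : ℝ) ≤ Real.exp (max K1 K2 * √ (Real.log N)) ∧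
        ∀ t : ℕ, (t : ℝ) ≤ δ / 8 * Real.log N → (Tz (k n))^[t] (b + k n * r) ≠ (Tz (k n))^[t] b} : Finset ℕ) ⊆
        {n ∈ Icc 1 N | LV (k n) b ⌊δ / 4 / 2 * Real.log N⌋₊ 0 ∧ ¬ ∃ r : ℕ,
          (r : ℝ) ≤ Real.exp (K2 * √ (Real.log N)) ∧ ∀ t : ℕ, t ≤ ⌊δ / 4 / 2 * Real.log N⌋₊ →
          (Tz (k n))^[t] (b + k n * r) ≠ (Tz (k n))^[t] b} ∪
        {n ∈ Icc 1 N | ¬ (2 ^ ⌊δ / 2 * Real.log N⌋₊ ≤ k n ∨ k n < -2 ^ ⌊δ / 2 * Real.log N⌋₊)} := by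
      intro n hn
      rw [mem_filter] at hn
      obtain ⟨hn1, hc, hn2⟩ := hn
      rw [mem_union, mem_filter, mem_filter]
      by_cases hl : (2 ^ ⌊δ / 2 * Real.log N⌋₊ ≤ k n ∨ k n < -2 ^ ⌊δ / 2 * Real.log N⌋₊)
      · left
        refine ⟨hn1, hLV n 0 (by rw [Nat.cast_zero]; positivity) hc hl, ?_⟩
        rintro ⟨r, hr, hr2⟩
        exact hn2 ⟨r, hr.trans hexp, fun t ht => hr2 t (le_floor_of (by rw [e8]; exact ht))⟩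
      · right
        exact ⟨hn1, hl⟩
    have h7 := (card_le_card hsub).trans (card_union_le _ _)
    have h8 : (#({n ∈ Icc 1 N | IsCoprime b (k n) ∧ ¬ ∃ r : ℕ,
        (r : ℝ) ≤ Real.exp (max K1 K2 * √ (Real.log N)) ∧
        ∀ t : ℕ, (t : ℝ) ≤ δ / 8 * Real.log N → (Tz (k n))^[t] (b + k n * r) ≠ (Tz (k n))^[t] b} : Finset ℕ) : ℝ) ≤
        (#{n ∈ Icc 1 N | LV (k n) b ⌊δ / 4 / 2 * Real.log N⌋₊ 0 ∧ ¬ ∃ r : ℕ,
          (r : ℝ) ≤ Real.exp (K2 * √ (Real.log N)) ∧ ∀ t : ℕ, t ≤ ⌊δ / 4 / 2 * Real.log N⌋₊ →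
          (Tz (k n))^[t] (b + k n * r) ≠ (Tz (k n))^[t] b} : ℝ) +
        #{n ∈ Icc 1 N | ¬ (2 ^ ⌊δ / 2 * Real.log N⌋₊ ≤ k n ∨ k n < -2 ^ ⌊δ / 2 * Real.log N⌋₊)} := by
      exact_mod_cast h7
    have h9 : (#{n ∈ Icc 1 N | LV (k n) b ⌊δ / 4 / 2 * Real.log N⌋₊ 0 ∧ ¬ ∃ r : ℕ,
          (r : ℝ) ≤ Real.exp (K2 * √ (Real.log N)) ∧ ∀ t : ℕ, t ≤ ⌊δ / 4 / 2 * Real.log N⌋₊ →
          (Tz (k n))^[t] (b + k n * r) ≠ (Tz (k n))^[t] b} : ℝ) ≤ ε / 2 * N := h6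
    linarith

end Pool.Agent.Y967.TD
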