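import Pool.Agent.Y967.TD.M

/-! Counting the exceptional `k`. -/

set_option autoImplicit false

namespace Pool.Agent.Y967.MD

open Finset Filter Topology Pool.Agent.Y967.TD

theorem multiples_le (N q : ℕ) (hq : 1 ≤ q) : (((Icc 1 N).filter (q ∣ ·)).card : ℝ) ≤ N / q := by
  have h1 : ((Icc 1 N).filter (q ∣ ·)).card = N / q := by
    have := Nat.Ioc_filter_dvd_card_eq_div N q
    rw [← this]
    congr 1
  rw [h1]
  exact Nat.cast_div_le

open Classical in
/-- Almost all `k` are rigid up to a power. -/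
theorem slow {ε : ℝ} (hε : 0 < ε) : ∃ c : ℝ, 0 < c ∧ ∃ N₀ : ℕ, ∀ N : ℕ, N₀ ≤ N →
    (((Icc 1 N).filter (fun k : ℕ => k % 2 = 1 ∧ ¬ Rigid (k : ℤ) ⌊(N : ℝ) ^ c⌋₊)).card : ℝ) ≤ ε * N := by
  set δ : ℝ := min (ε / 32) 1 with hδ
  have hδ0 : 0 < δ := lt_min (by positivity) one_pos
  have hδε : δ ≤ ε / 2 / 16 := (min_le_left _ _).trans (by linarith)
  obtain ⟨N1, hN1⟩ := smooth_count (show 0 < ε / 2 by positivity)
  have ht1 : Tendsto (fun N : ℕ => (N : ℝ) ^ δ) atTop atTop :=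
    (tendsto_rpow_atTop hδ0).comp tendsto_natCast_atTop_atTop
  have ht2 : Tendsto (fun N : ℕ => (N : ℝ) ^ (3 * δ / 8)) atTop atTop :=
    (tendsto_rpow_atTop (by positivity)).comp tendsto_natCast_atTop_atTop
  obtain ⟨N2, hN2⟩ := eventually_atTop.1 ((ht1.eventually_ge_atTop 5).and
    (ht2.eventually_ge_atTop (648 / ε)))
  refine ⟨δ / 8, by positivity, max (max N1 N2) 1, fun N hN => ?_⟩
  have hNN1 : N1 ≤ N := (le_max_left _ _).trans ((le_max_left _ _).trans hN)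
  have hNN2 : N2 ≤ N := (le_max_right _ _).trans ((le_max_left _ _).trans hN)
  have hN1' : 1 ≤ N := (le_max_right _ _).trans hN
  have hNr : (1 : ℝ) ≤ N := by exact_mod_cast hN1'
  have hN0 : (0 : ℝ) < N := by linarith
  obtain ⟨h5, h648⟩ := hN2 N hNN2
  set P := ⌊(N : ℝ) ^ (δ / 8)⌋₊ with hP
  set Y := ⌊(N : ℝ) ^ δ⌋₊ with hY
  have hP1 : 1 ≤ P := Nat.le_floor (by rw [Nat.cast_one]; exact Real.one_le_rpow hNr (by positivity))
  have hY5 : 5 ≤ Y := Nat.le_floor (by exact_mod_cast h5)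
  have hYle : (Y : ℝ) ≤ (N : ℝ) ^ δ := Nat.floor_le (by positivity)
  have hYlt : (N : ℝ) ^ δ < Y + 1 := Nat.lt_floor_add_one _
  have hY5r : (5 : ℝ) ≤ Y := by exact_mod_cast hY5
  have hlogY : Real.log Y ≤ ε / 2 / 16 * Real.log N := by
    have h1 := Real.log_le_log (by linarith) hYle
    rw [Real.log_rpow hN0] at h1
    exact h1.trans (mul_le_mul_of_nonneg_right hδε (Real.log_nonneg hNr))
  have hlogY1 : 1 ≤ Real.log Y := by
    rw [← Real.log_exp 1]
    apply Real.log_le_log (Real.exp_pos 1)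
    have := Real.exp_one_lt_d9
    linarith
  have hS := hN1 N hNN1 Y (by omega) hlogY
  -- the exceptional primes
  have hB := card_Bad hP1 (show 1 ≤ Y by omega)
  have hB1 : ((Bad P Y).card : ℝ) ≤ 324 * (N : ℝ) ^ (5 * δ / 8) := by
    have h1 : ((Bad P Y).card : ℝ) ≤ (Bad P Y).card * Real.log Y :=
      le_mul_of_one_le_right (Nat.cast_nonneg _) hlogY1
    refine h1.trans (hB.trans ?_)
    have h2 : (P : ℝ) ^ 5 ≤ ((N : ℝ) ^ (δ / 8)) ^ 5 :=
      pow_le_pow_left₀ (Nat.cast_nonneg _) (Nat.floor_le (by positivity)) 5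
    have h3 : ((N : ℝ) ^ (δ / 8)) ^ 5 = (N : ℝ) ^ (5 * δ / 8) := by
      rw [← Real.rpow_natCast, ← Real.rpow_mul hN0.le]
      congr 1
      push_cast
      ring
    rw [h3] at h2
    linarith
  have hsub : (Icc 1 N).filter (fun k : ℕ => k % 2 = 1 ∧ ¬ Rigid (k : ℤ) P) ⊆
      (Icc 1 N).filter (fun k => ∀ p : ℕ, p.Prime → p ∣ k → p ≤ Y) ∪
      (Bad P Y).biUnion (fun q => (Icc 1 N).filter (q ∣ ·)) := by
    intro k hk
    rw [mem_filter] at hk
    obtain ⟨hk1, hk2, hk3⟩ := hk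
    rw [mem_union, mem_filter, mem_biUnion]
    by_contra hcon
    rw [not_or] at hcon
    obtain ⟨hc1, hc2⟩ := hcon
    have hc3 : ∃ q : ℕ, q.Prime ∧ q ∣ k ∧ Y < q := by
      by_contra h1
      apply hc1
      refine ⟨hk1, fun p hp hpk => ?_⟩
      by_contra h2
      exact h1 ⟨p, hp, hpk, not_le.1 h2⟩
    obtain ⟨q, hq, hqk, hqY⟩ := hc3
    apply hk3
    refine rigid_of (by omega) hP1 hq (by omega) hqY (by exact_mod_cast hqk) (fun hqB => hc2 ?_)
    exact ⟨q, hqB, mem_filter.2 ⟨hk1, hqk⟩⟩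
  have h1 := (card_le_card hsub).trans (card_union_le _ _)
  have h2 : (((Icc 1 N).filter (fun k : ℕ => k % 2 = 1 ∧ ¬ Rigid (k : ℤ) P)).card : ℝ) ≤
      (((Icc 1 N).filter (fun k => ∀ p : ℕ, p.Prime → p ∣ k → p ≤ Y)).card : ℝ) +
      (((Bad P Y).biUnion (fun q => (Icc 1 N).filter (q ∣ ·))).card : ℝ) := by exact_mod_cast h1
  have h3 : (((Bad P Y).biUnion (fun q => (Icc 1 N).filter (q ∣ ·))).card : ℝ) ≤ ε / 2 * N := by
    have h4 : (((Bad P Y).biUnion (fun q => (Icc 1 N).filter (q ∣ ·))).card : ℝ) ≤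
        ∑ q ∈ Bad P Y, (((Icc 1 N).filter (q ∣ ·)).card : ℝ) := by exact_mod_cast card_biUnion_le
    have h5 : ∀ q ∈ Bad P Y, (((Icc 1 N).filter (q ∣ ·)).card : ℝ) ≤ N / (N : ℝ) ^ δ := by
      intro q hq
      unfold Bad at hq
      rw [mem_biUnion] at hq
      obtain ⟨t, -, ht⟩ := hq
      rw [mem_filter] at ht
      have hqY : (Y : ℝ) + 1 ≤ q := by exact_mod_cast ht.2
      refine (multiples_le N q (by omega)).trans ?_
      apply div_le_div_of_nonneg_left hN0.le (by positivity)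
      linarith
    have h6 := h4.trans (sum_le_card_nsmul _ _ _ h5)
    rw [nsmul_eq_mul] at h6
    refine h6.trans ?_
    have hpd : 0 < (N : ℝ) ^ δ := by positivity
    have h7 : (N : ℝ) ^ δ = (N : ℝ) ^ (5 * δ / 8) * (N : ℝ) ^ (3 * δ / 8) := by
      rw [← Real.rpow_add hN0]; congr 1; ring
    calc ((Bad P Y).card : ℝ) * (N / (N : ℝ) ^ δ)
        ≤ (324 * (N : ℝ) ^ (5 * δ / 8)) * (N / (N : ℝ) ^ δ) :=
          mul_le_mul_of_nonneg_right hB1 (by positivity)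
      _ = 324 * N / (N : ℝ) ^ (3 * δ / 8) := by
          rw [h7]
          have : (0 : ℝ) < (N : ℝ) ^ (5 * δ / 8) := by positivity
          field_simp
      _ ≤ ε / 2 * N := by
          rw [div_le_iff₀ (by positivity)]
          rw [div_le_iff₀ hε] at h648
          nlinarith
  linarith

/-- The exceptional primes for two starting values. -/
noncomputable def Badp (b b' : ℤ) (P Y : ℕ) : Finset ℕ :=
  (Icc (-(P : ℤ)) P ×ˢ Icc (-(P : ℤ)) P).biUnion
    fun t => ((Gf t.1 t.2 b b').natAbs.primeFactors.filter (Y < ·))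

theorem card_Badp (b b' : ℤ) : ∃ C : ℝ, 0 < C ∧ ∀ P Y : ℕ, 1 ≤ P → 1 ≤ Y →
    ((Badp b b' P Y).card : ℝ) * Real.log Y ≤ C * (P : ℝ) ^ 3 := by
  set B : ℝ := |(b : ℝ)| + |(b' : ℝ)| with hB
  refine ⟨9 * (2 + |Real.log B|), by positivity, fun P Y hP hY => ?_⟩
  have hPr : (1 : ℝ) ≤ P := by exact_mod_cast hP
  have h1 := biUnion_primes (Icc (-(P : ℤ)) P ×ˢ Icc (-(P : ℤ)) P)
    (fun t => Gf t.1 t.2 b b') hY (H := (2 + |Real.log B|) * P) (by positivity) (by
      rintro ⟨u, v⟩ ht h0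
      rw [mem_product, mem_Icc, mem_Icc] at ht
      obtain ⟨hu, hv⟩ := ht
      simp only at hu hv h0 ⊢
      refine (log_Gf (abs_le.2 hu) (abs_le.2 hv) le_rfl h0).trans ?_
      rw [← hB]
      have h2 := le_abs_self (Real.log B)
      have h3 : |Real.log B| ≤ |Real.log B| * P := le_mul_of_one_le_right (abs_nonneg _) hPr
      linarith)
  refine h1.trans ?_
  rw [card_product, card_Icc_P]
  push_cast
  have h2 : (2 * (P : ℝ) + 1) ≤ 3 * P := by linarith
  have h3 : (2 * (P : ℝ) + 1) * (2 * P + 1) ≤ (3 * P) * (3 * P) :=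
    mul_le_mul h2 h2 (by positivity) (by positivity)
  calc (2 * (P : ℝ) + 1) * (2 * P + 1) * ((2 + |Real.log B|) * P)
      ≤ (3 * P) * (3 * P) * ((2 + |Real.log B|) * P) := mul_le_mul_of_nonneg_right h3 (by positivity)
    _ = 9 * (2 + |Real.log B|) * (P : ℝ) ^ 3 := by ring

theorem mem_Badp {b b' : ℤ} {P Y q : ℕ} {u v : ℤ} (hq : q.Prime) (hqY : Y < q) (hu : |u| ≤ P) (hv : |v| ≤ P)
    (h0 : Gf u v b b' ≠ 0) (h : (q : ℤ) ∣ Gf u v b b') : q ∈ Badp b b' P Y := by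
  unfold Badp
  rw [mem_biUnion]
  refine ⟨(u, v), ?_, ?_⟩
  · rw [abs_le] at hu hv
    rw [mem_product, mem_Icc, mem_Icc]
    exact ⟨hu, hv⟩
  · rw [mem_filter, Nat.mem_primeFactors]
    exact ⟨⟨hq, Int.natCast_dvd.1 h, Int.natAbs_ne_zero.2 h0⟩, hqY⟩

open Classical in
/-- Counting exceptional primes. -/
theorem prime_count (b b' : ℤ) : ∃ C : ℝ, 0 < C ∧ ∀ (N P : ℕ) (Q : ℕ → Prop), 2 ≤ N → 1 ≤ P →
    (∀ q : ℕ, q.Prime → 5 ≤ q → ∀ Y, Y < q → Q q → q ∈ Badp b b' P Y) →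
    (((Icc 1 N).filter (fun q : ℕ => q.Prime ∧ Q q)).card : ℝ) ≤ √ (N : ℝ) + C * (P : ℝ) ^ 3 / Real.log N := by
  obtain ⟨C, hC, h⟩ := card_Badp b b'
  refine ⟨4 * C + 27, by positivity, fun N P Q hN hP hQ => ?_⟩
  have hNr : (2 : ℝ) ≤ N := by exact_mod_cast hN
  have hlogN : 0 < Real.log N := Real.log_pos (by linarith)
  have hPr : (1 : ℝ) ≤ P := by exact_mod_cast hP
  have hP3 : (1 : ℝ) ≤ (P : ℝ) ^ 3 := one_le_pow₀ hPr
  have hs0 : 0 ≤ √ (N : ℝ) := Real.sqrt_nonneg _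
  rcases Nat.lt_or_ge N 9 with h9 | h9
  · -- few
    have h1 : (((Icc 1 N).filter (fun q : ℕ => q.Prime ∧ Q q)).card : ℝ) ≤ 8 := by
      have h2 := card_filter_le (Icc 1 N) (fun q : ℕ => q.Prime ∧ Q q)
      rw [Nat.card_Icc] at h2
      have h3 : ((Icc 1 N).filter (fun q : ℕ => q.Prime ∧ Q q)).card ≤ 8 := by omega
      exact_mod_cast h3
    have h2 : Real.log N ≤ 3 := by
      have h3 : Real.log N ≤ Real.log (Real.exp 1 ^ 3) := by
        apply Real.log_le_log (by linarith)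
        have h4 : (N : ℝ) ≤ 8 := by exact_mod_cast (by omega : N ≤ 8)
        have h5 := Real.exp_one_gt_d9
        have h6 : (2 : ℝ) ^ 3 ≤ Real.exp 1 ^ 3 := pow_le_pow_left₀ (by norm_num) (by linarith) 3
        linarith
      rw [Real.log_pow, Real.log_exp] at h3
      push_cast at h3
      linarith
    have h3 : 8 ≤ (4 * C + 27) * (P : ℝ) ^ 3 / Real.log N := by
      rw [le_div_iff₀ hlogN]
      have : 27 ≤ (4 * C + 27) * (P : ℝ) ^ 3 := by nlinarith
      linarith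
    linarith
  · have h9r : (9 : ℝ) ≤ N := by exact_mod_cast h9
    set Y := ⌊√ (N : ℝ)⌋₊ with hY
    have hs3 : 3 ≤ √ (N : ℝ) := by
      apply Real.le_sqrt_of_sq_le; linarith
    have hY3 : 3 ≤ Y := Nat.le_floor (by exact_mod_cast hs3)
    have hYle : (Y : ℝ) ≤ √ (N : ℝ) := Nat.floor_le hs0
    have hYlt : √ (N : ℝ) < Y + 1 := Nat.lt_floor_add_one _
    -- `log Y ≥ log N / 4`
    have hlogY : Real.log N / 4 ≤ Real.log Y := by
      have h1 : √ (√ (N : ℝ)) ≤ Y := by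
        set s := √ (√ (N : ℝ)) with hs
        have h2 : s * s = √ (N : ℝ) := Real.mul_self_sqrt hs0
        have h3 : 0 ≤ s := Real.sqrt_nonneg _
        have h4 : 1.7 ≤ s := by
          apply Real.le_sqrt_of_sq_le; linarith
        nlinarith
      have h2 := Real.log_le_log (Real.sqrt_pos.2 (by linarith)) h1
      rw [Real.log_sqrt hs0, Real.log_sqrt (by linarith)] at h2
      linarith
    have hlogY0 : 0 < Real.log Y := by linarith
    have hsub : (Icc 1 N).filter (fun q : ℕ => q.Prime ∧ Q q) ⊆ Icc 1 Y ∪ Badp b b' P Y := by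
      intro q hq
      rw [mem_filter, mem_Icc] at hq
      obtain ⟨hq1, hq2, hq3⟩ := hq
      rw [mem_union, mem_Icc]
      by_cases h1 : q ≤ Y
      · left; exact ⟨hq1.1, h1⟩
      · right
        push Not at h1
        have h5 : 5 ≤ q := by
          by_contra h6
          have h7 : q = 4 := by omega
          rw [h7] at hq2
          exact absurd hq2 (by decide)
        exact hQ q hq2 h5 Y h1 hq3
    have h1 := (card_le_card hsub).trans (card_union_le _ _)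
    rw [Nat.card_Icc, Nat.add_sub_cancel] at h1
    have h2 : (((Icc 1 N).filter (fun q : ℕ => q.Prime ∧ Q q)).card : ℝ) ≤ Y + (Badp b b' P Y).card := by
      exact_mod_cast h1
    have h3 := h P Y hP (by omega)
    have h4 : ((Badp b b' P Y).card : ℝ) ≤ (4 * C) * (P : ℝ) ^ 3 / Real.log N := by
      rw [le_div_iff₀ hlogN]
      have h5 : ((Badp b b' P Y).card : ℝ) * Real.log N ≤ 4 * (((Badp b b' P Y).card : ℝ) * Real.log Y) := by
        have h6 : (0 : ℝ) ≤ ((Badp b b' P Y).card : ℝ) := Nat.cast_nonneg _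
        nlinarith
      linarith
    have h5 : (4 * C) * (P : ℝ) ^ 3 / Real.log N ≤ (4 * C + 27) * (P : ℝ) ^ 3 / Real.log N := by
      apply div_le_div_of_nonneg_right _ hlogN.le
      nlinarith
    linarith

theorem meet_bad {b b' : ℤ} {P : ℕ} {q : ℕ} (hq : q.Prime) (h5 : 5 ≤ q) {Y : ℕ} (hqY : Y < q)
    {i j : ℕ} (hi : i ≤ P) (hj : j ≤ P) (h : (Tk q)^[i] b = (Tk q)^[j] b')
    (hne : 2 ^ j * 3 ^ odds q i b * b ≠ 2 ^ i * 3 ^ odds q j b' * b') : q ∈ Badp b b' P Y := by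
  have hk : (q : ℤ) % 2 = 1 := by
    have := hq.eq_two_or_odd
    omega
  have h1 := meet_dvd hk hq h5 dvd_rfl h
  have ho := odds_le q i b
  have ho' := odds_le q j b'
  refine mem_Badp hq hqY ?_ ?_ ?_ h1
  · rw [abs_le]; omega
  · rw [abs_le]; omega
  · intro h0
    apply hne
    have h3 := diff_eq i j (odds q i b) (odds q j b') b b'
    rw [h0, mul_zero] at h3
    linarith

theorem cycle_bad {P : ℕ} {q : ℕ} (hq : q.Prime) (h5 : 5 ≤ q) {Y : ℕ} (hqY : Y < q)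
    {x : ℤ} (hx : IsCoprime x (q : ℤ)) {p : ℕ} (hp : 1 ≤ p) (hpP : p ≤ P) (h : (Tk q)^[p] x = x) :
    q ∈ Badp 1 1 P Y := by
  have hk : (q : ℤ) % 2 = 1 := by
    have := hq.eq_two_or_odd
    omega
  refine mem_Badp hq hqY ?_ ?_ (Gf_cycle_ne hp) (cycle_dvd hk dvd_rfl hx h)
  · rw [abs_of_nonneg (by positivity)]; exact_mod_cast hpP
  · rw [abs_neg, abs_of_nonneg (by positivity)]
    exact_mod_cast (odds_le q p x).trans hpP

end Pool.Agent.Y967.MD
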