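import Mathlib
import Pool.Agent.Y967.TD.N

/-! Counting exceptional primes, all at once. -/

set_option autoImplicit false

namespace Pool.Agent.Y967.MD

open Finset Filter Topology

/-- Counting exceptional primes without a bound on the size. -/
theorem prime_fin (b b' : ℤ) : ∃ C : ℝ, 0 < C ∧ ∀ (P : ℕ) (Q : ℕ → Prop), 2 ≤ P →
    (∀ q : ℕ, q.Prime → 5 ≤ q → ∀ Y, Y < q → Q q → q ∈ Badp b b' P Y) →
    ({q : ℕ | q.Prime ∧ Q q} : Set ℕ).Finite ∧
    (({q : ℕ | q.Prime ∧ Q q} : Set ℕ).ncard : ℝ) ≤ C * (P : ℝ) ^ 3 / Real.log P := by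
  classical
  obtain ⟨C, hC, h⟩ := card_Badp b b'
  refine ⟨C + 1, by positivity, fun P Q hP hQ => ?_⟩
  have hPr : (2 : ℝ) ≤ P := by exact_mod_cast hP
  have hlogP : 0 < Real.log P := Real.log_pos (by linarith)
  set Y := ⌊(P : ℝ) ^ 3 / Real.log P⌋₊ with hY
  have hYle : (Y : ℝ) ≤ (P : ℝ) ^ 3 / Real.log P := Nat.floor_le (by positivity)
  have hYP : P ^ 2 ≤ Y := by
    apply Nat.le_floor
    rw [le_div_iff₀ hlogP]
    have h1 := Real.log_le_sub_one_of_pos (show (0 : ℝ) < P by linarith)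
    push_cast
    have h2 : (0 : ℝ) ≤ (P : ℝ) ^ 2 := by positivity
    nlinarith
  have hPY : P ≤ Y := le_trans (by nlinarith) hYP
  have hY4 : 4 ≤ Y := le_trans (by nlinarith) hYP
  have hlogY : Real.log P ≤ Real.log Y :=
    Real.log_le_log (by linarith) (by exact_mod_cast hPY)
  have hsub : ({q : ℕ | q.Prime ∧ Q q} : Set ℕ) ⊆ ((Icc 1 Y ∪ Badp b b' P Y : Finset ℕ) : Set ℕ) := by
    rintro q ⟨hq, hQq⟩
    rw [mem_coe, mem_union, mem_Icc]
    by_cases h1 : q ≤ Y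
    · left; exact ⟨hq.one_lt.le, h1⟩
    · right
      exact hQ q hq (by omega) Y (by omega) hQq
  refine ⟨(finite_toSet _).subset hsub, ?_⟩
  have h1 := Set.ncard_le_ncard hsub (finite_toSet _)
  rw [Set.ncard_coe_finset] at h1
  have h2 := h1.trans (card_union_le _ _)
  rw [Nat.card_Icc, Nat.add_sub_cancel] at h2
  have h3 : (({q : ℕ | q.Prime ∧ Q q} : Set ℕ).ncard : ℝ) ≤ Y + (Badp b b' P Y).card := by
    exact_mod_cast h2
  have h4 := h P Y (by omega) (by omega)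
  have h5 : ((Badp b b' P Y).card : ℝ) ≤ C * (P : ℝ) ^ 3 / Real.log P := by
    rw [le_div_iff₀ hlogP]
    have h6 : (0 : ℝ) ≤ ((Badp b b' P Y).card : ℝ) := Nat.cast_nonneg _
    nlinarith
  have h6 : (C + 1) * (P : ℝ) ^ 3 / Real.log P =
      C * (P : ℝ) ^ 3 / Real.log P + (P : ℝ) ^ 3 / Real.log P := by ring
  rw [h6]
  linarith

end Pool.Agent.Y967.MD
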