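import Pool.Agent.Y967.CM.U

/-! The `3x+d` maps along families of sequences. -/

set_option autoImplicit false

namespace Pool.Agent.Y967.TD

open Finset Filter Topology Pool.Agent.H499R2.CO Pool.Agent.W38.CR Pool.Agent.W38.AF Pool.Agent.Y967.CM

/-- value of a form, scaled -/
def evd (d : ℤ) (A : ℕ × ℤ) (m : ℤ) : ℤ := 3 ^ A.1 * m + d * A.2

theorem evd_zero (d m : ℤ) : evd d (0, 0) m = m := by unfold evd; simp

theorem Tz_evd {d : ℤ} (hd : d % 2 = 1) (b : Bool) (A : ℕ × ℤ) (m : ℤ) :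
    Tz d (evd d A (2 * m + d * bz b)) = evd d (fs b A) m := by
  have e : evd d A (2 * m + d * bz b) = 2 * (3 ^ A.1 * m) + d * vl b A := by
    unfold evd vl; ring
  rw [e]
  obtain ⟨q, hq⟩ : ∃ q, d = 2 * q + 1 := ⟨d / 2, by omega⟩
  unfold Tz fs
  rcases Int.emod_two_eq_zero_or_one (vl b A) with h | h
  · obtain ⟨w, hw⟩ : ∃ w, vl b A = 2 * w := ⟨vl b A / 2, by omega⟩
    rw [hw]
    have e1 : 2 * (3 ^ A.1 * m) + d * (2 * w) = 2 * (3 ^ A.1 * m + d * w) := by ring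
    rw [e1, if_pos (by omega), if_pos (by omega)]
    unfold evd
    simp only
    rw [Int.mul_ediv_cancel_left _ (by norm_num : (2 : ℤ) ≠ 0), Int.mul_ediv_cancel_left _ (by norm_num : (2 : ℤ) ≠ 0)]
  · obtain ⟨w, hw⟩ : ∃ w, vl b A = 2 * w + 1 := ⟨vl b A / 2, by omega⟩
    rw [hw]
    have e1 : 2 * (3 ^ A.1 * m) + d * (2 * w + 1) = 2 * (3 ^ A.1 * m + d * w + q) + 1 := by
      rw [hq]; ring
    have e2 : 3 * (2 * (3 ^ A.1 * m) + d * (2 * w + 1)) + d = 2 * (3 * (3 ^ A.1 * m) + d * (3 * w + 2)) := by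
      ring
    have e3 : 3 * (2 * w + 1) + 1 = 2 * (3 * w + 2) := by ring
    rw [if_neg (by rw [e1]; omega), e2, if_neg (by omega), e3]
    unfold evd
    simp only
    rw [Int.mul_ediv_cancel_left _ (by norm_num : (2 : ℤ) ≠ 0), Int.mul_ediv_cancel_left _ (by norm_num : (2 : ℤ) ≠ 0),
      pow_succ]
    ring

theorem Tz_evd_iter {d : ℤ} (hd : d % 2 = 1) (l : List Bool) : ∀ (A : ℕ × ℤ) (m : ℤ),
    (Tz d)^[l.length] (evd d A (2 ^ l.length * m + d * bv l)) = evd d (fl l A) m := by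
  induction l with
  | nil => intro A m; simp [bv, fl]
  | cons b l ih =>
    intro A m
    have e : (2 : ℤ) ^ (b :: l).length * m + d * bv (b :: l) = 2 * (2 ^ l.length * m + d * bv l) + d * bz b := by
      simp only [List.length_cons, bv, pow_succ]; ring
    rw [e, List.length_cons, Function.iterate_succ_apply, Tz_evd hd, ih]
    rfl

/-- `x ≡ c d` modulo `2 ^ T`, and the forms of the class of `c` have all merged. -/
theorem FB_spec_d {d : ℤ} (hd : d % 2 = 1) {T v : ℕ} {x c : ℤ} (hx : x ≡ c * d [ZMOD 2 ^ T])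
    (h : FB v (cb T c) = 0) {A : ℕ × ℤ} (hA : A ∈ Qg v) :
    (Tz d)^[T] (evd d A x) = (Tz d)^[T] x := by
  have hall : ∀ B ∈ im (cb T c) (Qg v), B = fl (cb T c) (0, 0) := by
    by_contra hcon
    have h5 : FB v (cb T c) = 1 := bad_one hcon
    rw [h] at h5
    norm_num at h5
  have h1 := hall (fl (cb T c) A) (mem_image_of_mem _ hA)
  have h2T : (0 : ℤ) < 2 ^ T := by positivity
  obtain ⟨q, hq⟩ := Int.modEq_iff_dvd.1 hx.symm
  have hc := cb_decomp T c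
  have e : x = 2 ^ (cb T c).length * (q + c / 2 ^ T * d) + d * bv (cb T c) := by
    rw [length_cb]
    linear_combination hq + d * hc
  have h3 := Tz_evd_iter hd (cb T c) A (q + c / 2 ^ T * d)
  have h4 := Tz_evd_iter hd (cb T c) (0, 0) (q + c / 2 ^ T * d)
  rw [← e, length_cb] at h3 h4
  rw [evd_zero] at h4
  rw [h3, h4, h1]

open Classical in
/-- Families of pairs of sequences with `x / k` spread modulo powers of two, uniformly. -/
def PSpr {ι : Type} (δ : ℝ) (x k : ι → ℕ → ℤ) : Prop :=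
  ∀ ε : ℝ, 0 < ε → ∃ η : ℝ, 0 < η ∧ ∃ N₀ : ℕ, ∀ N : ℕ, N₀ ≤ N → ∀ w : ι,
    ∀ T : ℕ, (2 : ℝ) ^ T ≤ (N : ℝ) ^ δ → ∀ P : ℤ → Prop, (∀ y m : ℤ, P (y + m * 2 ^ T) ↔ P y) →
      (#{c ∈ range (2 ^ T) | P ((c : ℕ) : ℤ)} : ℝ) ≤ η * 2 ^ T →
      (#{n ∈ Icc 1 N | ∃ c : ℤ, P c ∧ x w n ≡ c * k w n [ZMOD 2 ^ T]} : ℝ) ≤ ε * N

open Classical in
theorem all_forms_U {ι : Type} {δ : ℝ} (hδ : 0 < δ) {x k : ι → ℕ → ℤ} (h : PSpr δ x k)
    (hk : ∀ w n, 1 ≤ n → k w n % 2 = 1) {κ : ℝ} (hκ : 0 < κ) {ε : ℝ} (hε : 0 < ε) :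
    ∀ᶠ N : ℕ in atTop, ∀ w : ι,
      (#{n ∈ Icc 1 N | ¬ ∀ (i : ℕ) (r : ℤ), (i : ℝ) ≤ CM.kap n → |(r : ℝ)| ≤ Real.exp (CM.kap n) →
        (Tz (k w n))^[⌊κ * Real.log n⌋₊] (3 ^ i * x w n + k w n * r) =
          (Tz (k w n))^[⌊κ * Real.log n⌋₊] (x w n)} : ℝ) ≤ ε * N := by
  obtain ⟨η, hη, N0, h1⟩ := h (ε / 2) (by positivity)
  obtain ⟨m0, hm0⟩ := phaseG hη
  set κ1 : ℝ := min δ (κ / 2) with hκ1
  have hκ10 : 0 < κ1 := lt_min hδ (by positivity)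
  filter_upwards [choose_RG hκ10 m0, sqrt_small (show 0 < ε / 2 by positivity), eventually_ge_atTop N0,
    eventually_ge_atTop 1] with N h2 h3 h4 h5 w
  obtain ⟨m, hm, hm1, hm2⟩ := h2
  obtain ⟨T, hT, hav⟩ := hm0 m hm
  have hNr : (1 : ℝ) ≤ N := by exact_mod_cast h5
  have hL : 0 ≤ Real.log N := Real.log_nonneg hNr
  have hT1 : (T : ℝ) ≤ κ1 * Real.log N := by
    have : (T : ℝ) ≤ ((2 * (4 ^ m * m ^ 30) : ℕ) : ℝ) := by exact_mod_cast hT
    linarith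
  have hT2 : (2 : ℝ) ^ T ≤ (N : ℝ) ^ δ := by
    apply two_pow_le h5
    exact hT1.trans (mul_le_mul_of_nonneg_right (min_le_left _ _) hL)
  have h6 := h1 N h4 w T hT2 (fun y => FB (2 ^ (m - 3)) (cb T y) ≠ 0) (fun y m => by rw [cb_periodic]) (by
    have h3 : (#{c ∈ range (2 ^ T) | FB (2 ^ (m - 3)) (cb T ((c : ℕ) : ℤ)) ≠ 0} : ℝ) ≤ η * 2 ^ T := by
      refine (cls_count (FB_nonneg _) (fun l => FB_one) T).trans ?_
      rw [mul_comm]
      exact mul_le_mul_of_nonneg_right hav (by positivity)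
    refine le_trans (le_of_eq ?_) h3
    congr!)
  have hsub : ({n ∈ Icc 1 N | ¬ ∀ (i : ℕ) (r : ℤ), (i : ℝ) ≤ CM.kap n → |(r : ℝ)| ≤ Real.exp (CM.kap n) →
        (Tz (k w n))^[⌊κ * Real.log n⌋₊] (3 ^ i * x w n + k w n * r) =
          (Tz (k w n))^[⌊κ * Real.log n⌋₊] (x w n)} : Finset ℕ) ⊆
      {n ∈ Icc 1 N | ((n : ℕ) : ℝ) < √ (N : ℝ)} ∪
      {n ∈ Icc 1 N | ∃ c : ℤ, FB (2 ^ (m - 3)) (cb T c) ≠ 0 ∧ x w n ≡ c * k w n [ZMOD 2 ^ T]} := by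
    intro n hn
    rw [mem_filter] at hn
    rw [mem_union, mem_filter, mem_filter]
    by_contra hcon
    rw [not_or] at hcon
    obtain ⟨h7, h8⟩ := hcon
    have h9 : √ (N : ℝ) ≤ n := by
      by_contra h9
      exact h7 ⟨hn.1, not_le.1 h9⟩
    -- the inverse of `k` modulo `2 ^ T`
    have hcop : IsCoprime (k w n) ((2 : ℤ) ^ T) := by
      apply IsCoprime.pow_right
      exact ⟨1, -(k w n / 2), by have := hk w n (mem_Icc.1 hn.1).1; omega⟩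
    obtain ⟨u, v, huv⟩ := hcop
    have hxc : x w n ≡ (x w n * u) * k w n [ZMOD 2 ^ T] := by
      apply Int.ModEq.symm
      rw [Int.modEq_iff_dvd]
      exact ⟨v * x w n, by linear_combination -(x w n) * huv⟩
    have h10 : FB (2 ^ (m - 3)) (cb T (x w n * u)) = 0 := by
      by_contra h11
      exact h8 ⟨hn.1, _, h11, hxc⟩
    apply hn.2
    intro i r hi hr
    have hnN : n ≤ N := (mem_Icc.1 hn.1).2
    have h11 := hm2 n h9 hnN
    have h12 : (i, r) ∈ Qg (2 ^ (m - 3)) := by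
      apply kap_int _ hi hr
      push_cast
      exact h11
    have h14 := FB_spec_d (hk w n (mem_Icc.1 hn.1).1) hxc h10 h12
    have e : evd (k w n) (i, r) (x w n) = 3 ^ i * x w n + k w n * r := rfl
    rw [e] at h14
    refine persist h14 ?_
    apply Nat.le_floor
    have h13 := log_sqrt_le h5 h9
    calc (T : ℝ) ≤ κ1 * Real.log N := hT1
      _ ≤ κ / 2 * Real.log N := mul_le_mul_of_nonneg_right (min_le_right _ _) hL
      _ ≤ κ / 2 * (2 * Real.log n) := mul_le_mul_of_nonneg_left h13 (by positivity)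
      _ = κ * Real.log n := by ring
  have h7 := (card_le_card hsub).trans (card_union_le _ _)
  have h8 : (#({n ∈ Icc 1 N | ¬ ∀ (i : ℕ) (r : ℤ), (i : ℝ) ≤ CM.kap n → |(r : ℝ)| ≤ Real.exp (CM.kap n) →
        (Tz (k w n))^[⌊κ * Real.log n⌋₊] (3 ^ i * x w n + k w n * r) =
          (Tz (k w n))^[⌊κ * Real.log n⌋₊] (x w n)} : Finset ℕ) : ℝ) ≤
      (#{n ∈ Icc 1 N | ((n : ℕ) : ℝ) < √ (N : ℝ)} : ℝ) +
      #{n ∈ Icc 1 N | ∃ c : ℤ, FB (2 ^ (m - 3)) (cb T c) ≠ 0 ∧ x w n ≡ c * k w n [ZMOD 2 ^ T]} := by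
    exact_mod_cast h7
  have h9 := small_card N
  have h10 : (#{n ∈ Icc 1 N | ∃ c : ℤ, FB (2 ^ (m - 3)) (cb T c) ≠ 0 ∧ x w n ≡ c * k w n [ZMOD 2 ^ T]} : ℝ)
      ≤ ε / 2 * N := h6
  linarith

open Classical in
theorem inj_count {T : ℕ} {P Q : ℤ → Prop} (f : ℕ → ℤ) (hP : ∀ y m : ℤ, P (y + m * 2 ^ T) ↔ P y)
    (hf : ∀ y ∈ range (2 ^ T), Q (y : ℤ) → P (f y))
    (hinj : ∀ y ∈ range (2 ^ T), ∀ y' ∈ range (2 ^ T), Q (y : ℤ) → Q (y' : ℤ) →
      f y ≡ f y' [ZMOD 2 ^ T] → (y : ℤ) ≡ y' [ZMOD 2 ^ T]) :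
    #{y ∈ range (2 ^ T) | Q ((y : ℕ) : ℤ)} ≤ #{c ∈ range (2 ^ T) | P ((c : ℕ) : ℤ)} := by
  have h2T : (0 : ℤ) < 2 ^ T := by positivity
  have hval : ∀ y : ℤ, (((y % 2 ^ T).toNat : ℕ) : ℤ) = y % 2 ^ T := fun y =>
    Int.toNat_of_nonneg (Int.emod_nonneg y h2T.ne')
  apply card_le_card_of_injOn (fun y : ℕ => (f y % 2 ^ T).toNat)
  · intro y hy
    rw [mem_coe, mem_filter] at hy
    rw [mem_coe, mem_filter, mem_range]
    constructor
    · have h1 := Int.emod_lt_of_pos (f y) h2T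
      rw [← hval] at h1
      have : (((f y % 2 ^ T).toNat : ℕ) : ℤ) < ((2 ^ T : ℕ) : ℤ) := by push_cast; exact h1
      exact_mod_cast this
    · simp only
      rw [hval, ← hP _ (f y / 2 ^ T)]
      have := Int.emod_add_mul_ediv (f y) (2 ^ T)
      rw [mul_comm] at this
      rw [this]
      exact hf y hy.1 hy.2
  · intro y hy y' hy' h
    rw [mem_coe, mem_filter] at hy hy'
    simp only at h
    have h1 : f y % 2 ^ T = f y' % 2 ^ T := by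
      have a1 := hval (f y)
      have a2 := hval (f y')
      rw [← a1, ← a2, h]
    have h2 := hinj y hy.1 y' hy'.1 hy.2 hy'.2 h1
    have h3 : (y : ℤ) < 2 ^ T := by exact_mod_cast mem_range.1 hy.1
    have h4 : (y' : ℤ) < 2 ^ T := by exact_mod_cast mem_range.1 hy'.1
    have h5 : (y : ℤ) % 2 ^ T = (y' : ℤ) % 2 ^ T := h2
    rw [Int.emod_eq_of_lt (by positivity) h3, Int.emod_eq_of_lt (by positivity) h4] at h5
    exact_mod_cast h5

/-- The odd integers. -/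
abbrev Od := {d : ℤ // d % 2 = 1}

/-- Uniformly in `d`. -/
theorem PSpr_d {δ : ℝ} {x : ℕ → ℤ} (h : Spr δ x) : PSpr δ (fun _ : Od => x) (fun d _ => d.1) := by
  classical
  intro ε hε
  obtain ⟨η, hη, N0, h1⟩ := h ε hε
  refine ⟨η, hη, N0, fun N hN d T hT P hP hc => ?_⟩
  refine h1 N hN T hT (fun y => ∃ c : ℤ, P c ∧ y ≡ c * d.1 [ZMOD 2 ^ T]) ?_ ?_
  · intro y m
    have e : y + m * 2 ^ T ≡ y [ZMOD 2 ^ T] := Int.modEq_iff_dvd.2 ⟨-m, by ring⟩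
    exact exists_congr fun c => and_congr_right fun _ => ⟨fun h2 => e.symm.trans h2, fun h2 => e.trans h2⟩
  · refine le_trans ?_ hc
    have hch : ∀ y : ℕ, ∃ c : ℤ, (∃ c : ℤ, P c ∧ (y : ℤ) ≡ c * d.1 [ZMOD 2 ^ T]) →
        P c ∧ (y : ℤ) ≡ c * d.1 [ZMOD 2 ^ T] := by
      intro y
      by_cases h2 : ∃ c : ℤ, P c ∧ (y : ℤ) ≡ c * d.1 [ZMOD 2 ^ T]
      · obtain ⟨c, hc⟩ := h2
        exact ⟨c, fun _ => hc⟩
      · exact ⟨0, fun h3 => (h2 h3).elim⟩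
    choose f hf using hch
    have h3 := inj_count (Q := fun y => ∃ c : ℤ, P c ∧ y ≡ c * d.1 [ZMOD 2 ^ T]) f hP
      (fun y _ hy => (hf y hy).1) (fun y _ y' _ hy hy' heq => by
        refine (hf y hy).2.trans (Int.ModEq.trans ?_ (hf y' hy').2.symm)
        exact heq.mul_right _)
    exact Nat.cast_le.2 h3

/-- Fixed start, variable `d`. -/
theorem PSpr_b {δ : ℝ} {k : ℕ → ℤ} (h : Spr δ k) : PSpr δ (fun (b : Od) _ => b.1) (fun _ => k) := by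
  classical
  intro ε hε
  obtain ⟨η, hη, N0, h1⟩ := h ε hε
  refine ⟨η, hη, N0, fun N hN b T hT P hP hc => ?_⟩
  refine h1 N hN T hT (fun y => ∃ c : ℤ, P c ∧ b.1 ≡ c * y [ZMOD 2 ^ T]) ?_ ?_
  · intro y m
    have e : y + m * 2 ^ T ≡ y [ZMOD 2 ^ T] := Int.modEq_iff_dvd.2 ⟨-m, by ring⟩
    exact exists_congr fun c => and_congr_right fun _ =>
      ⟨fun h2 => h2.trans (e.mul_left c), fun h2 => h2.trans (e.symm.mul_left c)⟩
  · refine le_trans ?_ hc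
    have hch : ∀ y : ℕ, ∃ c : ℤ, (∃ c : ℤ, P c ∧ b.1 ≡ c * (y : ℤ) [ZMOD 2 ^ T]) →
        P c ∧ b.1 ≡ c * (y : ℤ) [ZMOD 2 ^ T] := by
      intro y
      by_cases h2 : ∃ c : ℤ, P c ∧ b.1 ≡ c * (y : ℤ) [ZMOD 2 ^ T]
      · obtain ⟨c, hc⟩ := h2
        exact ⟨c, fun _ => hc⟩
      · exact ⟨0, fun h3 => (h2 h3).elim⟩
    choose f hf using hch
    have hcb : IsCoprime b.1 ((2 : ℤ) ^ T) := by
      apply IsCoprime.pow_right
      exact ⟨1, -(b.1 / 2), by have := b.2; omega⟩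
    refine Nat.cast_le.2 (inj_count (Q := fun y => ∃ c : ℤ, P c ∧ b.1 ≡ c * y [ZMOD 2 ^ T]) f hP
      (fun y _ hy => (hf y hy).1) (fun y _ y' _ hy hy' heq => ?_))
    · have h2 := (hf y hy).2
      have h3 := (hf y' hy').2
      -- `f y` is coprime to `2 ^ T`
      obtain ⟨q, hq⟩ := Int.modEq_iff_dvd.1 h2
      have h4 : IsCoprime (f y * (y : ℤ)) ((2 : ℤ) ^ T) := by
        obtain ⟨u, v, huv⟩ := hcb
        exact ⟨u, v - u * q, by linear_combination huv + u * hq⟩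
      have h5 : IsCoprime (f y) ((2 : ℤ) ^ T) := h4.of_mul_left_left
      have h6 : f y * (y : ℤ) ≡ f y * (y' : ℤ) [ZMOD 2 ^ T] := by
        refine h2.symm.trans (h3.trans ?_)
        exact (heq.symm.mul_right _)
      rw [Int.modEq_iff_dvd] at h6 ⊢
      rw [← mul_sub] at h6
      exact h5.symm.dvd_of_dvd_mul_left h6

end Pool.Agent.Y967.TD
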