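import Pool.Agent.Y967.CM.V
import Pool.Agent.Y967.TD.A

/-! The `3x+d` maps along families of sequences: the sharp range. -/

set_option autoImplicit false

namespace Pool.Agent.Y967.TD

open Finset Filter Topology Pool.Agent.H499R2.CO Pool.Agent.W38.CR Pool.Agent.W38.AF Pool.Agent.Y967.CM

/-- The forms which occur have different values if their levels are different. -/
def LV (d x : ℤ) (t i : ℕ) : Prop := ∀ m : ℤ, (∃ u : ℤ, 0 ≤ u ∧ u < 2 ^ t ∧ x = 2 ^ t * m + d * u) →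
  ∀ (j1 j2 : ℕ) (c1 c2 : ℤ), j1 ≤ i + t → j2 ≤ i + t → 0 ≤ c1 → c1 ≤ 3 ^ j1 → 0 ≤ c2 → c2 ≤ 3 ^ j2 →
    3 ^ j1 * m + d * c1 = 3 ^ j2 * m + d * c2 → j1 = j2

theorem lv_large {d x : ℤ} {t i : ℕ} (h : 3 * 2 ^ t * |d| ≤ |x|) (hd : d ≠ 0) : LV d x t i := by
  rintro m ⟨u, hu0, hu1, hx⟩ j1 j2 c1 c2 - - h1 h1' h2 h2' heq
  have hd1 : 1 ≤ |d| := Int.one_le_abs hd
  have h2t : (0 : ℤ) < 2 ^ t := by positivity
  have hm : 2 * |d| ≤ |m| := by
    by_contra hcon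
    push Not at hcon
    have h3 : |x| ≤ 2 ^ t * |m| + |d| * u := by
      rw [hx]
      refine (abs_add_le _ _).trans ?_
      rw [abs_mul, abs_mul, abs_of_pos h2t, abs_of_nonneg hu0]
    have h4 : |d| * u ≤ |d| * 2 ^ t := mul_le_mul_of_nonneg_left hu1.le (abs_nonneg d)
    have h5 : 2 ^ t * |m| < 2 ^ t * (2 * |d|) := mul_lt_mul_of_pos_left hcon h2t
    nlinarith
  have key : ∀ (j1 j2 : ℕ) (c1 c2 : ℤ), 0 ≤ c1 → c1 ≤ 3 ^ j1 → 0 ≤ c2 → c2 ≤ 3 ^ j2 →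
      3 ^ j1 * m + d * c1 = 3 ^ j2 * m + d * c2 → ¬ j1 < j2 := by
    intro j1 j2 c1 c2 h1 h1' h2 h2' h hlt
    have p1 : (0 : ℤ) < 3 ^ j1 := by positivity
    have h3 : (3 : ℤ) ^ (j1 + 1) ≤ 3 ^ j2 := pow_le_pow_right₀ (by norm_num) hlt
    rw [pow_succ] at h3
    have h4 : (3 ^ j2 - 3 ^ j1) * m = d * (c1 - c2) := by linear_combination -h
    have h5 : |(3 : ℤ) ^ j2 - 3 ^ j1| * |m| = |d| * |c1 - c2| := by rw [← abs_mul, h4, abs_mul]
    rw [abs_of_nonneg (show (0 : ℤ) ≤ 3 ^ j2 - 3 ^ j1 by linarith)] at h5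
    have h6 : |c1 - c2| ≤ 3 ^ j2 := by
      rw [abs_le]
      constructor
      · linarith
      · linarith
    have h7 : (3 ^ j2 - 3 ^ j1) * (2 * |d|) ≤ |d| * 3 ^ j2 := by
      calc (3 ^ j2 - 3 ^ j1) * (2 * |d|) ≤ (3 ^ j2 - 3 ^ j1) * |m| :=
            mul_le_mul_of_nonneg_left hm (by linarith)
        _ = |d| * |c1 - c2| := h5
        _ ≤ |d| * 3 ^ j2 := mul_le_mul_of_nonneg_left h6 (abs_nonneg d)
    nlinarith
  rcases lt_trichotomy j1 j2 with hlt | heq' | hgt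
  · exact absurd hlt (key j1 j2 c1 c2 h1 h1' h2 h2' heq)
  · exact heq'
  · exact absurd hgt (key j2 j1 c2 c1 h2 h2' h1 h1' heq.symm)

theorem lv_gcd {d x : ℤ} {t i : ℕ} (h : IsCoprime x d) (hd : 3 ^ (i + t) ≤ |d|) : LV d x t i := by
  rintro m ⟨u, hu0, hu1, hx⟩ j1 j2 c1 c2 hj1 hj2 h1 h1' h2 h2' heq
  have hcop : IsCoprime d m := by
    obtain ⟨a, b, hab⟩ := h
    exact ⟨b + a * u, a * 2 ^ t, by rw [hx] at hab; linear_combination hab⟩
  have h4 : (3 ^ j2 - 3 ^ j1) * m = d * (c1 - c2) := by linear_combination -heq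
  have h5 : d ∣ (3 ^ j2 - 3 ^ j1) := by
    apply hcop.dvd_of_dvd_mul_right
    exact ⟨_, h4⟩
  have p1 : (0 : ℤ) < 3 ^ j1 := by positivity
  have p2 : (0 : ℤ) < 3 ^ j2 := by positivity
  have q1 : (3 : ℤ) ^ j1 ≤ 3 ^ (i + t) := pow_le_pow_right₀ (by norm_num) hj1
  have q2 : (3 : ℤ) ^ j2 ≤ 3 ^ (i + t) := pow_le_pow_right₀ (by norm_num) hj2
  have h6 : (3 : ℤ) ^ j2 - 3 ^ j1 = 0 := by
    apply Int.eq_zero_of_abs_lt_dvd ((abs_dvd _ _).2 h5)
    rw [abs_lt]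
    constructor
    · linarith
    · linarith
  have h7 : (3 : ℤ) ^ j1 = 3 ^ j2 := by linarith
  exact Int.pow_right_injective (by norm_num) h7

/-- different levels: not merged -/
theorem nmd {d x c : ℤ} {k i : ℕ} (hd : d % 2 = 1) (hx : x ≡ c * d [ZMOD 2 ^ k]) {A : ℕ × ℤ}
    (hi : A.1 ≤ i) (hLV : LV d x k i)
    (hA0 : 0 ≤ ev A (bv (cb k c))) (hA1 : ev A (-2 ^ k + bv (cb k c)) ≤ 0)
    (hne : (fl (cb k c) (0, 0)).1 ≠ (fl (cb k c) A).1) :
    (Tz d)^[k] (evd d A x) ≠ (Tz d)^[k] x := by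
  have hbv0 := bv_nonneg (cb k c)
  have hbv1 := bv_lt (cb k c)
  have hlen := length_cb k c
  rw [hlen] at hbv1
  have b1 := bounds (l := cb k c) (A := A) hA0 (by rw [hlen]; exact hA1)
  have b0 := bounds (l := cb k c) (A := (0, 0)) (by rw [ev_zero]; exact hbv0)
    (by rw [ev_zero, hlen]; linarith)
  have l1 := (fl_level (cb k c) A).2
  have l0 := (fl_level (cb k c) (0, 0)).2
  rw [hlen] at l1 l0
  simp only [Nat.zero_add] at l0
  intro hcon
  apply hne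
  obtain ⟨q, hq⟩ := Int.modEq_iff_dvd.1 hx.symm
  have hc := cb_decomp k c
  have e : x = 2 ^ k * (q + c / 2 ^ k * d) + d * bv (cb k c) := by
    linear_combination hq + d * hc
  have e' : x = 2 ^ (cb k c).length * (q + c / 2 ^ k * d) + d * bv (cb k c) := by
    rw [hlen]; exact e
  have h3 := Tz_evd_iter hd (cb k c) A (q + c / 2 ^ k * d)
  have h4 := Tz_evd_iter hd (cb k c) (0, 0) (q + c / 2 ^ k * d)
  rw [← e', hlen] at h3 h4
  rw [evd_zero] at h4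
  rw [h3, h4] at hcon
  unfold evd at hcon
  exact hLV _ ⟨_, hbv0, hbv1, e⟩ _ _ _ _ (by omega) (by omega) b0.1 b0.2 b1.1 b1.2 hcon.symm

open Classical in
/-- Transfer of a bound for the average over all classes. -/
theorem PSpr.tr {ι : Type} {δ : ℝ} {x k : ι → ℕ → ℤ} (h : PSpr δ x k) {ε : ℝ} (hε : 0 < ε) :
    ∃ η : ℝ, 0 < η ∧ ∃ N₀ : ℕ,
    ∀ N : ℕ, N₀ ≤ N → ∀ w : ι, ∀ T : ℕ, (2 : ℝ) ^ T ≤ (N : ℝ) ^ δ → ∀ F : List Bool → ℝ, (∀ l, 0 ≤ F l) →
      (∀ l, F l ≠ 0 → 1 ≤ F l) → av T F ≤ η →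
      (#{n ∈ Icc 1 N | ∃ c : ℤ, F (cb T c) ≠ 0 ∧ x w n ≡ c * k w n [ZMOD 2 ^ T]} : ℝ) ≤ ε * N := by
  obtain ⟨η, hη, N0, h1⟩ := h ε hε
  refine ⟨η, hη, N0, fun N hN w T hT F hF hF1 hav => ?_⟩
  exact h1 N hN w T hT (fun y => F (cb T y) ≠ 0) (fun y m => by rw [cb_periodic]) (by
    have h3 : (#{c ∈ range (2 ^ T) | F (cb T ((c : ℕ) : ℤ)) ≠ 0} : ℝ) ≤ η * 2 ^ T := by
      refine (cls_count hF hF1 T).trans ?_
      rw [mul_comm]
      exact mul_le_mul_of_nonneg_right hav (by positivity)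
    refine le_trans (le_of_eq ?_) h3
    congr!)

theorem exists_quot {k : ℤ} (hk : k % 2 = 1) (T : ℕ) (x : ℤ) : ∃ c : ℤ, x ≡ c * k [ZMOD 2 ^ T] := by
  have hcop : IsCoprime k ((2 : ℤ) ^ T) := by
    apply IsCoprime.pow_right
    exact ⟨1, -(k / 2), by omega⟩
  obtain ⟨u, v, huv⟩ := hcop
  refine ⟨x * u, ?_⟩
  apply Int.ModEq.symm
  rw [Int.modEq_iff_dvd]
  exact ⟨v * x, by linear_combination -x * huv⟩

open Classical in
/-- Powers of three far away. -/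
theorem far3_U {ι : Type} {δ : ℝ} (hδ : 0 < δ) {x k : ι → ℕ → ℤ} (h : PSpr δ x k)
    (hk : ∀ w n, 1 ≤ n → k w n % 2 = 1) {ε : ℝ} (hε : 0 < ε) :
    ∃ K : ℝ, 0 < K ∧ ∃ N₀ : ℕ, ∀ N : ℕ, N₀ ≤ N → ∀ w : ι, ∀ i : ℕ, K * √ (Real.log N) ≤ i →
      (#{n ∈ Icc 1 N | LV (k w n) (x w n) ⌊δ / 2 * Real.log N⌋₊ i ∧ ∃ t : ℕ, t ≤ ⌊δ / 2 * Real.log N⌋₊ ∧
        (Tz (k w n))^[t] (3 ^ i * x w n) = (Tz (k w n))^[t] (x w n)} : ℝ) ≤ ε * N := by
  obtain ⟨η, hη, N0, h1⟩ := h.tr hε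
  refine ⟨1 + δ / η, by positivity, max N0 3, fun N hN w i hi => ?_⟩
  have hNN0 : N0 ≤ N := (le_max_left _ _).trans hN
  have hN3 : 3 ≤ N := (le_max_right _ _).trans hN
  have hNr : (3 : ℝ) ≤ N := by exact_mod_cast hN3
  set L := Real.log N with hL
  have hL0 : 0 < L := Real.log_pos (by linarith)
  set t0 := ⌊δ / 2 * L⌋₊ with ht0
  have hkle : (t0 : ℝ) ≤ δ / 2 * L := Nat.floor_le (by positivity)
  have hT : (2 : ℝ) ^ t0 ≤ (N : ℝ) ^ δ := by
    apply two_pow_le (by omega)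
    have : 0 < δ * L := by positivity
    linarith
  have hsq : √ L * √ L = L := Real.mul_self_sqrt hL0.le
  have hsL : 0 < √ L := Real.sqrt_pos.2 hL0
  have hir : 0 < (i : ℝ) := lt_of_lt_of_le (by positivity) hi
  have hi1 : 1 ≤ i := by exact_mod_cast hir
  have hi2 : (1 + δ / η) * L ≤ (i : ℝ) ^ 2 := by
    have h5 : ((1 + δ / η) * √ L) ^ 2 ≤ (i : ℝ) ^ 2 := pow_le_pow_left₀ (by positivity) hi 2
    refine le_trans ?_ h5
    have h6 : 1 + δ / η ≤ (1 + δ / η) ^ 2 := by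
      have : 0 < δ / η := by positivity
      nlinarith
    calc (1 + δ / η) * L ≤ (1 + δ / η) ^ 2 * L := mul_le_mul_of_nonneg_right h6 hL0.le
      _ = ((1 + δ / η) * √ L) ^ 2 := by rw [mul_pow, sq (√ L), hsq]
  have hav : av t0 (sm3 i) ≤ η := by
    refine (av_sm3 hi1).trans ?_
    rw [div_le_iff₀ (by positivity)]
    have h5 : η * ((1 + δ / η) * L) ≤ η * (i : ℝ) ^ 2 := mul_le_mul_of_nonneg_left hi2 hη.le
    have h6 : η * ((1 + δ / η) * L) = η * L + δ * L := by field_simp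
    have h7 : 0 < η * L := by positivity
    have h8 : 0 < δ * L := by positivity
    linarith
  have h2 := h1 N hNN0 w t0 hT (sm3 i) (sm3_nonneg i) (fun l => sm3_one) hav
  refine le_trans ?_ h2
  have hsub : ({n ∈ Icc 1 N | LV (k w n) (x w n) t0 i ∧ ∃ t : ℕ, t ≤ t0 ∧
        (Tz (k w n))^[t] (3 ^ i * x w n) = (Tz (k w n))^[t] (x w n)} : Finset ℕ) ⊆
      {n ∈ Icc 1 N | ∃ c : ℤ, sm3 i (cb t0 c) ≠ 0 ∧ x w n ≡ c * k w n [ZMOD 2 ^ t0]} := by
    intro n hn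
    rw [mem_filter] at hn
    obtain ⟨hn1, hLV, t, ht, heq⟩ := hn
    rw [mem_filter]
    refine ⟨hn1, ?_⟩
    have hkn := hk w n (mem_Icc.1 hn1).1
    obtain ⟨c, hc⟩ := exists_quot hkn t0 (x w n)
    refine ⟨c, fun h4' => ?_, hc⟩
    have hne : (fl (cb t0 c) (0, 0)).1 ≠ (fl (cb t0 c) (i, 0)).1 := by
      intro h6
      unfold sm3 at h4'
      rw [if_pos h6] at h4'
      norm_num at h4'
    have hb0 := bv_nonneg (cb t0 c)
    have hb1 := bv_lt (cb t0 c)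
    rw [length_cb] at hb1
    have h3u : (0 : ℤ) < 3 ^ i := by positivity
    have e1 : ∀ y : ℤ, ev ((i, 0) : ℕ × ℤ) y = 3 ^ i * y := fun y => by unfold ev; simp
    have e2 : evd (k w n) ((i, 0) : ℕ × ℤ) (x w n) = 3 ^ i * x w n := by unfold evd; simp
    refine nmd hkn hc (A := (i, 0)) le_rfl hLV (by rw [e1]; positivity) ?_ hne ?_
    · rw [e1]
      apply mul_nonpos_of_nonneg_of_nonpos h3u.le
      linarith
    · rw [e2]
      exact persist heq ht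
  exact_mod_cast card_le_card hsub

open Classical in
/-- Shifts. -/
theorem farr_U {ι : Type} {δ : ℝ} (hδ : 0 < δ) {x k : ι → ℕ → ℤ} (h : PSpr δ x k)
    (hk : ∀ w n, 1 ≤ n → k w n % 2 = 1) {ε : ℝ} (hε : 0 < ε) :
    ∃ K : ℝ, 0 < K ∧ ∃ N₀ : ℕ, ∀ N : ℕ, N₀ ≤ N → ∀ w : ι,
      (#{n ∈ Icc 1 N | LV (k w n) (x w n) ⌊δ / 2 * Real.log N⌋₊ 0 ∧
        ¬ ∃ r : ℕ, (r : ℝ) ≤ Real.exp (K * √ (Real.log N)) ∧ ∀ t : ℕ, t ≤ ⌊δ / 2 * Real.log N⌋₊ →
          (Tz (k w n))^[t] (x w n + k w n * r) ≠ (Tz (k w n))^[t] (x w n)} : ℝ) ≤ ε * N := by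
  obtain ⟨η, hη, N0, h1⟩ := h.tr hε
  obtain ⟨K, hK⟩ : ∃ K : ℝ, K = 2 + 8 * δ / η := ⟨_, rfl⟩
  have hK0 : 0 < K := by rw [hK]; positivity
  have hev : ∀ᶠ N : ℕ in atTop, (2 * (K + 2) / δ) ^ 2 + 1 ≤ Real.log N := log_nat_tendsto.eventually_ge_atTop _
  obtain ⟨N2, hN2⟩ := eventually_atTop.1 hev
  refine ⟨K, hK0, max N0 (max N2 3), fun N hN w => ?_⟩
  have hNN0 : N0 ≤ N := (le_max_left _ _).trans hN
  have hNN2 : N2 ≤ N := (le_max_left _ _).trans ((le_max_right _ _).trans hN)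
  have hN3 : 3 ≤ N := (le_max_right _ _).trans ((le_max_right _ _).trans hN)
  have hNr : (3 : ℝ) ≤ N := by exact_mod_cast hN3
  have hlog := hN2 N hNN2
  set L := Real.log N with hL
  have hL1 : 1 ≤ L := by
    have : 0 ≤ (2 * (K + 2) / δ) ^ 2 := by positivity
    linarith
  have hL0 : 0 < L := by linarith
  set t0 := ⌊δ / 2 * L⌋₊ with ht0
  have hkle : (t0 : ℝ) ≤ δ / 2 * L := Nat.floor_le (by positivity)
  have hkge : δ / 2 * L < t0 + 1 := Nat.lt_floor_add_one _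
  have hT : (2 : ℝ) ^ t0 ≤ (N : ℝ) ^ δ := by
    apply two_pow_le (by omega)
    have : 0 < δ * L := by positivity
    linarith
  have hsq : √ L * √ L = L := Real.mul_self_sqrt hL0.le
  have hsL1 : 1 ≤ √ L := Real.one_le_sqrt.2 hL1
  have hsL : 0 < √ L := by linarith
  -- the number of steps
  set u := ⌊K * √ L⌋₊ with hu
  have hule : (u : ℝ) ≤ K * √ L := Nat.floor_le (by positivity)
  have huge : K * √ L < u + 1 := Nat.lt_floor_add_one _
  have hK2 : 2 ≤ K := by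
    rw [hK]
    have : 0 < 8 * δ / η := by positivity
    linarith
  have hu2 : K / 2 * √ L ≤ u := by nlinarith
  have hu0 : (0 : ℝ) < u := lt_of_lt_of_le (by positivity) hu2
  have hu1 : 1 ≤ u := by exact_mod_cast hu0
  have huk : u ≤ t0 := by
    have h5 : 2 * (K + 2) / δ ≤ √ L := by
      apply Real.le_sqrt_of_sq_le
      linarith
    rw [div_le_iff₀ hδ] at h5
    have h6 : (K + 2) * √ L ≤ δ / 2 * L := by
      calc (K + 2) * √ L = (2 * (K + 2)) / 2 * √ L := by ring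
        _ ≤ (√ L * δ) / 2 * √ L := by
            apply mul_le_mul_of_nonneg_right _ hsL.le
            linarith
        _ = δ / 2 * (√ L * √ L) := by ring
        _ = δ / 2 * L := by rw [hsq]
    have h7 : (u : ℝ) < t0 + 1 := by nlinarith
    have : u < t0 + 1 := by exact_mod_cast h7
    omega
  obtain ⟨k', hk'⟩ : ∃ k', t0 = u + k' := ⟨t0 - u, by omega⟩
  have hav : av t0 (same u) ≤ η := by
    rw [hk']
    refine (av_same hu1).trans ?_
    rw [div_le_iff₀ (by positivity)]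
    have h5 : ((u : ℝ) + k') = t0 := by rw [hk']; push_cast; ring
    rw [h5]
    have h6 : (K / 2 * √ L) ^ 2 ≤ (u : ℝ) ^ 2 := pow_le_pow_left₀ (by positivity) hu2 2
    have h7 : (K / 2 * √ L) ^ 2 = (K / 2) ^ 2 * L := by rw [mul_pow, sq (√ L), hsq]
    rw [h7] at h6
    have h8 : 2 * δ / η ≤ (K / 2) ^ 2 := by
      have h9 : 1 ≤ K / 2 := by linarith
      have h10 : K / 2 = 1 + 4 * δ / η := by rw [hK]; ring
      have h11 : 0 < δ / η := by positivity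
      have h12 : 4 * δ / η = 4 * (δ / η) := by ring
      have h13 : 2 * δ / η = 2 * (δ / η) := by ring
      rw [h10, h12, h13]
      nlinarith
    rw [div_le_iff₀ hη] at h8
    calc 4 * (t0 : ℝ) ≤ 4 * (δ / 2 * L) := by linarith
      _ = 2 * δ * L := by ring
      _ ≤ (K / 2) ^ 2 * η * L := mul_le_mul_of_nonneg_right h8 hL0.le
      _ = η * ((K / 2) ^ 2 * L) := by ring
      _ ≤ η * (u : ℝ) ^ 2 := mul_le_mul_of_nonneg_left h6 hη.le
  have h2 := h1 N hNN0 w t0 hT (same u) (same_nonneg u) (fun l => same_one) hav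
  refine le_trans ?_ h2
  have hsub : ({n ∈ Icc 1 N | LV (k w n) (x w n) t0 0 ∧
        ¬ ∃ r : ℕ, (r : ℝ) ≤ Real.exp (K * √ L) ∧ ∀ t : ℕ, t ≤ t0 →
          (Tz (k w n))^[t] (x w n + k w n * r) ≠ (Tz (k w n))^[t] (x w n)} : Finset ℕ) ⊆
      {n ∈ Icc 1 N | ∃ c : ℤ, same u (cb t0 c) ≠ 0 ∧ x w n ≡ c * k w n [ZMOD 2 ^ t0]} := by
    intro n hn
    rw [mem_filter] at hn
    obtain ⟨hn1, hLV, hn2⟩ := hn
    rw [mem_filter]
    refine ⟨hn1, ?_⟩
    have hkn := hk w n (mem_Icc.1 hn1).1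
    obtain ⟨c, hc⟩ := exists_quot hkn t0 (x w n)
    refine ⟨c, fun h4' => ?_, hc⟩
    apply hn2
    set l := cb t0 c with hl
    have hlen : l.length = t0 := length_cb _ _
    have hb0 := bv_nonneg (l.take u)
    have hb1 := bv_lt (l.take u)
    have hlt : (l.take u).length = u := by rw [List.length_take, hlen]; omega
    rw [hlt] at hb1
    obtain ⟨r, hh⟩ : ∃ h : ℕ, (h : ℤ) = 2 ^ u - bv (l.take u) :=
      ⟨(2 ^ u - bv (l.take u)).toNat, Int.toNat_of_nonneg (by linarith)⟩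
    refine ⟨r, ?_, fun t ht heq => ?_⟩
    · have h1 : (r : ℝ) ≤ 2 ^ u := by
        have : (r : ℤ) ≤ 2 ^ u := by linarith
        exact_mod_cast this
      refine h1.trans ?_
      calc (2 : ℝ) ^ u ≤ Real.exp 1 ^ u := by
            apply pow_le_pow_left₀ (by norm_num)
            have := Real.exp_one_gt_d9
            linarith
        _ = Real.exp u := by rw [← Real.exp_nat_mul, mul_one]
        _ ≤ _ := Real.exp_le_exp.2 hule
    · have hne : (fl l (0, 0)).1 ≠ (fl l (0, (r : ℤ))).1 := by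
        intro h9
        unfold same at h4'
        rw [hh] at h9
        rw [if_pos h9] at h4'
        norm_num at h4'
      have e1 : ∀ y : ℤ, ev ((0, (r : ℤ)) : ℕ × ℤ) y = y + r := fun y => by unfold ev; simp
      have e2 : evd (k w n) ((0, (r : ℤ)) : ℕ × ℤ) (x w n) = x w n + k w n * r := by unfold evd; simp
      have hbl0 := bv_nonneg l
      have h4 : bv l = bv (l.take u) + 2 ^ u * bv (l.drop u) := by
        have h5 := bv_append (l.take u) (l.drop u)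
        rw [List.take_append_drop, hlt] at h5
        exact h5
      have h6 := bv_lt (l.drop u)
      have h7 : (l.drop u).length = k' := by rw [List.length_drop, hlen]; omega
      rw [h7] at h6
      have h8 : bv l + r ≤ 2 ^ t0 := by
        rw [h4, hh, hk', pow_add]
        have h2u : (0 : ℤ) < 2 ^ u := by positivity
        nlinarith
      refine nmd hkn hc (A := (0, (r : ℤ))) (le_refl 0) hLV (by rw [e1, ← hl]; positivity) ?_ hne ?_
      · rw [e1, ← hl]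
        linarith
      · rw [e2]
        exact persist heq ht
  exact_mod_cast card_le_card hsub

end Pool.Agent.Y967.TD
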