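import Pool.Agent.Helper923.HMertens

/-! Few integers have no large prime factor. -/

set_option autoImplicit false

namespace Pool.Agent.Y967.TD

open Finset

abbrev PP (N : ℕ) : Finset ℕ := (Finset.Icc 1 N).filter Nat.Prime

theorem sum_factorization (p : ℕ) (N : ℕ) :
    ∑ k ∈ Icc 1 N, k.factorization p = N.factorial.factorization p := by
  induction N with
  | zero => simp
  | succ N ih =>
    rw [Finset.sum_Icc_succ_top (by omega), ih, Nat.factorial_succ,
      Nat.factorization_mul (by omega) (Nat.factorial_ne_zero N), Finsupp.add_apply, add_comm]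

theorem fact_le {p : ℕ} (hp : p.Prime) (N : ℕ) :
    (N.factorial.factorization p : ℝ) ≤ 2 * N / p := by
  haveI := Fact.mk hp
  have h := sub_one_mul_padicValNat_factorial (p := p) N
  have h1 : (p - 1) * padicValNat p N.factorial ≤ N := by rw [h]; exact Nat.sub_le _ _
  have h2 : ((p : ℝ) - 1) * (N.factorial.factorization p : ℝ) ≤ N := by
    have h3 : (((p - 1) * padicValNat p N.factorial : ℕ) : ℝ) ≤ (N : ℝ) := by exact_mod_cast h1
    rw [Nat.cast_mul, Nat.cast_sub hp.one_lt.le, Nat.cast_one] at h3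
    rw [Nat.factorization_def _ hp]
    exact h3
  have hp2 : (2 : ℝ) ≤ p := by exact_mod_cast hp.two_le
  rw [le_div_iff₀ (by linarith)]
  have h4 : (0 : ℝ) ≤ (N.factorial.factorization p : ℝ) := Nat.cast_nonneg _
  nlinarith

open Classical in
/-- The sum of the logarithms of the integers without large prime factor. -/
theorem smooth_log : ∃ C : ℝ, 0 ≤ C ∧ ∀ N Y : ℕ, 1 ≤ Y →
    ∑ k ∈ (Icc 1 N).filter (fun k => ∀ p : ℕ, p.Prime → p ∣ k → p ≤ Y), Real.log k ≤
      2 * N * (Real.log Y + C) := by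
  obtain ⟨C, hC⟩ := Pool.Agent.Helper923.HMertens.mertens_log
  have hC0 : 0 ≤ C := (abs_nonneg _).trans (hC 1 le_rfl)
  refine ⟨C, hC0, fun N Y hY => ?_⟩
  have h1 : ∀ k ∈ (Icc 1 N).filter (fun k => ∀ p : ℕ, p.Prime → p ∣ k → p ≤ Y),
      Real.log k = ∑ p ∈ PP Y, (k.factorization p : ℝ) * Real.log p := by
    intro k hk
    rw [mem_filter, mem_Icc] at hk
    rw [Real.log_nat_eq_sum_factorization, Finsupp.sum]
    have h2 : k.factorization.support ⊆ PP Y := by
      intro p hp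
      rw [Nat.support_factorization, Nat.mem_primeFactors] at hp
      rw [mem_filter, mem_Icc]
      exact ⟨⟨hp.1.one_lt.le, hk.2 p hp.1 hp.2.1⟩, hp.1⟩
    refine Finset.sum_subset h2 fun p _ hp => ?_
    rw [Finsupp.notMem_support_iff] at hp
    rw [hp]; simp
  rw [sum_congr rfl h1]
  have h2 : ∑ k ∈ (Icc 1 N).filter (fun k => ∀ p : ℕ, p.Prime → p ∣ k → p ≤ Y),
      ∑ p ∈ PP Y, (k.factorization p : ℝ) * Real.log p ≤
      ∑ k ∈ Icc 1 N, ∑ p ∈ PP Y, (k.factorization p : ℝ) * Real.log p := by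
    apply sum_le_sum_of_subset_of_nonneg (filter_subset _ _)
    intro k _ _
    apply sum_nonneg
    intro p _
    exact mul_nonneg (Nat.cast_nonneg _) (Real.log_natCast_nonneg p)
  refine h2.trans ?_
  rw [sum_comm]
  have h3 : ∀ p ∈ PP Y, ∑ k ∈ Icc 1 N, (k.factorization p : ℝ) * Real.log p ≤ 2 * N * (Real.log p / p) := by
    intro p hp
    rw [mem_filter] at hp
    rw [← sum_mul, ← Nat.cast_sum, sum_factorization]
    have h4 := fact_le hp.2 N
    have h5 := mul_le_mul_of_nonneg_right h4 (Real.log_natCast_nonneg p)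
    refine h5.trans (le_of_eq ?_)
    ring
  refine (sum_le_sum h3).trans ?_
  rw [← mul_sum]
  apply mul_le_mul_of_nonneg_left _ (by positivity)
  have h4 := (abs_le.1 (hC Y hY)).2
  have h5 : ∑ p ∈ PP Y, Real.log (p : ℝ) / p = ∑ p ∈ (Finset.Icc 1 Y).filter Nat.Prime, Real.log p / p := rfl
  rw [h5]
  linarith

open Classical in
/-- At most `ε N` integers up to `N` have no prime factor larger than `N ^ δ`. -/
theorem smooth_count {ε : ℝ} (hε : 0 < ε) : ∃ N₀ : ℕ, ∀ N : ℕ, N₀ ≤ N → ∀ Y : ℕ, 1 ≤ Y →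
    Real.log Y ≤ ε / 16 * Real.log N →
      (((Icc 1 N).filter (fun k => ∀ p : ℕ, p.Prime → p ∣ k → p ≤ Y)).card : ℝ) ≤ ε * N := by
  obtain ⟨C, hC0, hC⟩ := smooth_log
  have hlog : Filter.Tendsto (fun N : ℕ => Real.log N) Filter.atTop Filter.atTop :=
    Real.tendsto_log_atTop.comp tendsto_natCast_atTop_atTop
  obtain ⟨N1, hN1⟩ := Filter.eventually_atTop.1 (hlog.eventually_ge_atTop (16 * C / ε + 1))
  obtain ⟨N2, hN2⟩ := exists_nat_ge ((2 / ε) ^ 2)
  refine ⟨max (max N1 N2) 1, fun N hN Y hY hYN => ?_⟩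
  have hNN1 : N1 ≤ N := (le_max_left _ _).trans ((le_max_left _ _).trans hN)
  have hNN2 : N2 ≤ N := (le_max_right _ _).trans ((le_max_left _ _).trans hN)
  have hN1' : 1 ≤ N := (le_max_right _ _).trans hN
  have hNr : (1 : ℝ) ≤ N := by exact_mod_cast hN1'
  have hL := hN1 N hNN1
  set L := Real.log N with hLdef
  have hL1 : 1 ≤ L := by
    have : 0 ≤ 16 * C / ε := by positivity
    linarith
  have hL0 : 0 < L := by linarith
  have hCL : 16 * C ≤ ε * L := by
    have h1 : 16 * C / ε ≤ L := by linarith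
    rw [div_le_iff₀ hε] at h1
    linarith
  have hsN : 0 < √ (N : ℝ) := Real.sqrt_pos.2 (by linarith)
  have hsq : √ (N : ℝ) * √ (N : ℝ) = N := Real.mul_self_sqrt (by linarith)
  have hsN2 : √ (N : ℝ) ≤ ε / 2 * N := by
    have h1 : 2 / ε ≤ √ (N : ℝ) := by
      apply Real.le_sqrt_of_sq_le
      refine hN2.trans ?_
      exact_mod_cast hNN2
    rw [div_le_iff₀ hε] at h1
    nlinarith
  set S := (Icc 1 N).filter (fun k => ∀ p : ℕ, p.Prime → p ∣ k → p ≤ Y) with hS
  -- split at the square root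
  have h1 : (S.filter (fun k : ℕ => (k : ℝ) ≤ √ (N : ℝ))).card ≤ ⌊√ (N : ℝ)⌋₊ := by
    have h2 : S.filter (fun k : ℕ => (k : ℝ) ≤ √ (N : ℝ)) ⊆ Icc 1 ⌊√ (N : ℝ)⌋₊ := by
      intro k hk
      rw [mem_filter, hS, mem_filter, mem_Icc] at hk
      rw [mem_Icc]
      exact ⟨hk.1.1.1, Nat.le_floor hk.2⟩
    have h3 := card_le_card h2
    rw [Nat.card_Icc] at h3
    omega
  have h2 : ((S.filter (fun k : ℕ => (k : ℝ) ≤ √ (N : ℝ))).card : ℝ) ≤ ε / 2 * N := by
    refine le_trans ?_ hsN2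
    refine le_trans ?_ (Nat.floor_le hsN.le)
    exact_mod_cast h1
  have h3 : ((S.filter (fun k : ℕ => ¬ (k : ℝ) ≤ √ (N : ℝ))).card : ℝ) * (L / 2) ≤ 2 * N * (Real.log Y + C) := by
    refine le_trans ?_ (hC N Y hY)
    rw [← hS, ← nsmul_eq_mul]
    refine le_trans ?_ (sum_le_sum_of_subset_of_nonneg (filter_subset (fun k : ℕ => ¬ (k : ℝ) ≤ √ (N : ℝ)) S)
      (fun k _ _ => Real.log_natCast_nonneg k))
    apply card_nsmul_le_sum
    intro k hk
    rw [mem_filter, not_le] at hk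
    have h4 := Real.log_le_log hsN hk.2.le
    rw [Real.log_sqrt (by linarith)] at h4
    exact h4
  have h4 : ((S.filter (fun k : ℕ => ¬ (k : ℝ) ≤ √ (N : ℝ))).card : ℝ) ≤ ε / 2 * N := by
    have h5 : 2 * N * (Real.log Y + C) ≤ (ε / 2 * N) * (L / 2) := by
      have h6 : Real.log Y + C ≤ ε / 8 * L := by linarith
      calc 2 * N * (Real.log Y + C) ≤ 2 * N * (ε / 8 * L) := mul_le_mul_of_nonneg_left h6 (by positivity)
        _ = (ε / 2 * N) * (L / 2) := by ring
    exact le_of_mul_le_mul_right (h3.trans h5) (by linarith)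
  have h5 := card_filter_add_card_filter_not (s := S) (fun k : ℕ => (k : ℝ) ≤ √ (N : ℝ))
  have h6 : (S.card : ℝ) = ((S.filter (fun k : ℕ => (k : ℝ) ≤ √ (N : ℝ))).card : ℝ) +
      ((S.filter (fun k : ℕ => ¬ (k : ℝ) ≤ √ (N : ℝ))).card : ℝ) := by
    rw [← h5]; push_cast; rfl
  rw [h6]
  linarith

end Pool.Agent.Y967.TD
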