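import Mathlib
import Pool.Agent.Y967.TD.S

/-! Coincidences between orbits of the `3x+k` map: almost all `k` have only the algebraic ones. -/

set_option autoImplicit false

namespace Pool.Agent.Y967.MD

open Finset

/-- the `3x+k` map -/
def Tk (k x : ℤ) : ℤ := if x % 2 = 0 then x / 2 else (3 * x + k) / 2

/-- number of odd terms among the first `j` terms -/
def odds (k : ℤ) (j : ℕ) (x : ℤ) : ℕ := ((range j).filter fun l => (Tk k)^[l] x % 2 = 1).card

theorem odds_zero (k x : ℤ) : odds k 0 x = 0 := rfl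

theorem odds_succ (k : ℤ) (j : ℕ) (x : ℤ) :
    odds k (j + 1) x = (if x % 2 = 1 then 1 else 0) + odds k j (Tk k x) := by
  unfold odds
  rw [card_filter, card_filter, sum_range_succ']
  simp only [Function.iterate_succ_apply, Function.iterate_zero, id_eq]
  exact add_comm _ _

theorem odds_le (k : ℤ) (j : ℕ) (x : ℤ) : odds k j x ≤ j := by
  unfold odds
  refine (card_filter_le _ _).trans ?_
  rw [card_range]

theorem cong {k : ℤ} (hk : k % 2 = 1) (j : ℕ) : ∀ x : ℤ,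
    k ∣ 2 ^ j * (Tk k)^[j] x - 3 ^ odds k j x * x := by
  induction j with
  | zero => intro x; rw [odds_zero]; simp
  | succ j ih =>
    intro x
    obtain ⟨q, hq⟩ := ih (Tk k x)
    rw [Function.iterate_succ_apply, odds_succ]
    rcases Int.emod_two_eq_zero_or_one x with h | h
    · have e : 2 * Tk k x = x := by unfold Tk; rw [if_pos h]; omega
      rw [if_neg (by omega), zero_add]
      exact ⟨2 * q, by rw [pow_succ]; linear_combination 2 * hq + 3 ^ odds k j (Tk k x) * e⟩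
    · have e : 2 * Tk k x = 3 * x + k := by unfold Tk; rw [if_neg (by omega)]; omega
      have e3 : (3 : ℤ) ^ (1 + odds k j (Tk k x)) = 3 * 3 ^ odds k j (Tk k x) := by
        rw [pow_add, pow_one]
      rw [if_pos h, e3]
      exact ⟨2 * q + 3 ^ odds k j (Tk k x), by
        rw [pow_succ]; linear_combination 2 * hq + 3 ^ odds k j (Tk k x) * e⟩

/-- the reduced difference -/
def Gf (u v b b' : ℤ) : ℤ := 2 ^ u.toNat * 3 ^ v.toNat * b - 2 ^ (-u).toNat * 3 ^ (-v).toNat * b'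

theorem diff_eq (i j o o' : ℕ) (b b' : ℤ) :
    (2 : ℤ) ^ j * 3 ^ o * b - 2 ^ i * 3 ^ o' * b' =
      2 ^ min i j * 3 ^ min o o' * Gf ((j : ℤ) - i) ((o : ℤ) - o') b b' := by
  unfold Gf
  have e1 : j = min i j + ((j : ℤ) - i).toNat := by omega
  have e2 : i = min i j + (-((j : ℤ) - i)).toNat := by omega
  have e3 : o = min o o' + ((o : ℤ) - o').toNat := by omega
  have e4 : o' = min o o' + (-((o : ℤ) - o')).toNat := by omega
  have f1 : (2 : ℤ) ^ j = 2 ^ min i j * 2 ^ ((j : ℤ) - i).toNat := by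
    rw [← pow_add, ← e1]
  have f2 : (2 : ℤ) ^ i = 2 ^ min i j * 2 ^ (-((j : ℤ) - i)).toNat := by
    rw [← pow_add, ← e2]
  have f3 : (3 : ℤ) ^ o = 3 ^ min o o' * 3 ^ ((o : ℤ) - o').toNat := by
    rw [← pow_add, ← e3]
  have f4 : (3 : ℤ) ^ o' = 3 ^ min o o' * 3 ^ (-((o : ℤ) - o')).toNat := by
    rw [← pow_add, ← e4]
  generalize ((j : ℤ) - i).toNat = a1 at *
  generalize (-((j : ℤ) - i)).toNat = a2 at *
  generalize ((o : ℤ) - o').toNat = a3 at *
  generalize (-((o : ℤ) - o')).toNat = a4 at *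
  rw [f1, f2, f3, f4]
  ring

theorem Gf_size {u v b b' : ℤ} {P : ℕ} (hu : |u| ≤ P) (hv : |v| ≤ P) :
    |Gf u v b b'| ≤ 6 ^ P * (|b| + |b'|) := by
  have h1 : ∀ w : ℤ, |w| ≤ P → w.toNat ≤ P ∧ (-w).toNat ≤ P := by
    intro w hw
    rw [abs_le] at hw
    omega
  obtain ⟨hu1, hu2⟩ := h1 u hu
  obtain ⟨hv1, hv2⟩ := h1 v hv
  have h2 : ∀ a c : ℕ, a ≤ P → c ≤ P → (2 : ℤ) ^ a * 3 ^ c ≤ 6 ^ P := by
    intro a c ha hc
    calc (2 : ℤ) ^ a * 3 ^ c ≤ 2 ^ P * 3 ^ P :=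
          mul_le_mul (pow_le_pow_right₀ (by norm_num) ha) (pow_le_pow_right₀ (by norm_num) hc)
            (by positivity) (by positivity)
      _ = 6 ^ P := by rw [← mul_pow]; norm_num
  unfold Gf
  refine (abs_sub _ _).trans ?_
  rw [abs_mul (2 ^ u.toNat * 3 ^ v.toNat) b, abs_mul (2 ^ (-u).toNat * 3 ^ (-v).toNat) b',
    abs_of_nonneg (show (0 : ℤ) ≤ 2 ^ u.toNat * 3 ^ v.toNat by positivity),
    abs_of_nonneg (show (0 : ℤ) ≤ 2 ^ (-u).toNat * 3 ^ (-v).toNat by positivity)]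
  have h3 := mul_le_mul_of_nonneg_right (h2 _ _ hu1 hv1) (abs_nonneg b)
  have h4 := mul_le_mul_of_nonneg_right (h2 _ _ hu2 hv2) (abs_nonneg b')
  linarith

/-- Large prime factors of an integer. -/
theorem large_primes {n Y : ℕ} (hn : n ≠ 0) (hY : 1 ≤ Y) :
    ((n.primeFactors.filter (Y < ·)).card : ℝ) * Real.log Y ≤ Real.log n := by
  have h1 : (Y : ℝ) ^ (n.primeFactors.filter (Y < ·)).card ≤ n := by
    have h2 : Y ^ (n.primeFactors.filter (Y < ·)).card ≤ ∏ p ∈ n.primeFactors.filter (Y < ·), p := by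
      rw [← prod_const]
      apply prod_le_prod'
      intro p hp
      rw [mem_filter] at hp
      exact hp.2.le
    have h3 : ∏ p ∈ n.primeFactors.filter (Y < ·), p ≤ ∏ p ∈ n.primeFactors, p := by
      apply prod_le_prod_of_subset_of_one_le' (filter_subset _ _)
      intro p hp _
      exact (Nat.prime_of_mem_primeFactors hp).one_lt.le
    have h4 : ∏ p ∈ n.primeFactors, p ≤ n :=
      Nat.le_of_dvd (Nat.pos_of_ne_zero hn) (Nat.prod_primeFactors_dvd n)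
    exact_mod_cast h2.trans (h3.trans h4)
  have h5 := Real.log_le_log (by positivity) h1
  rw [Real.log_pow] at h5
  exact h5

theorem biUnion_primes {ι : Type} [DecidableEq ι] (s : Finset ι) (g : ι → ℤ) {Y : ℕ} (hY : 1 ≤ Y) {H : ℝ}
    (hH : 0 ≤ H) (hg : ∀ t ∈ s, g t ≠ 0 → Real.log |(g t : ℝ)| ≤ H) :
    ((s.biUnion fun t => ((g t).natAbs.primeFactors.filter (Y < ·))).card : ℝ) * Real.log Y ≤ s.card * H := by
  have hlogY : 0 ≤ Real.log Y := Real.log_natCast_nonneg Y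
  have h1 : ((s.biUnion fun t => ((g t).natAbs.primeFactors.filter (Y < ·))).card : ℝ) ≤
      ∑ t ∈ s, (((g t).natAbs.primeFactors.filter (Y < ·)).card : ℝ) := by
    exact_mod_cast card_biUnion_le
  refine (mul_le_mul_of_nonneg_right h1 hlogY).trans ?_
  rw [sum_mul, ← nsmul_eq_mul]
  apply sum_le_card_nsmul
  intro t ht
  by_cases h0 : g t = 0
  · rw [h0]
    simp [hH]
  · have h2 := large_primes (n := (g t).natAbs) (by omega) hY
    refine h2.trans ?_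
    have h3 : (((g t).natAbs : ℕ) : ℝ) = |(g t : ℝ)| := by
      rw [Nat.cast_natAbs, Int.cast_abs]
    rw [h3]
    exact hg t ht h0

theorem cop6 {q : ℕ} (hq : q.Prime) (h5 : 5 ≤ q) (a c : ℕ) : IsCoprime (q : ℤ) ((2 : ℤ) ^ a * 3 ^ c) := by
  have h2 : IsCoprime (q : ℤ) 2 := by
    have : Nat.Coprime q 2 := (Nat.coprime_primes hq Nat.prime_two).2 (by omega)
    exact_mod_cast this.isCoprime
  have h3 : IsCoprime (q : ℤ) 3 := by
    have : Nat.Coprime q 3 := (Nat.coprime_primes hq Nat.prime_three).2 (by omega)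
    exact_mod_cast this.isCoprime
  exact (h2.pow_right).mul_right (h3.pow_right)

/-- The large prime factor divides the reduced difference. -/
theorem meet_dvd {k : ℤ} (hk : k % 2 = 1) {q : ℕ} (hq : q.Prime) (h5 : 5 ≤ q) (hqk : (q : ℤ) ∣ k)
    {b b' : ℤ} {i j : ℕ} (h : (Tk k)^[i] b = (Tk k)^[j] b') :
    (q : ℤ) ∣ Gf ((j : ℤ) - i) ((odds k i b : ℤ) - odds k j b') b b' := by
  have h1 := cong hk i b
  have h2 := cong hk j b'
  have h3 : (q : ℤ) ∣ 2 ^ j * 3 ^ odds k i b * b - 2 ^ i * 3 ^ odds k j b' * b' := by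
    have h4 := dvd_sub (h2.mul_left (2 ^ i)) (h1.mul_left (2 ^ j))
    have e : 2 ^ i * (2 ^ j * (Tk k)^[j] b' - 3 ^ odds k j b' * b') -
        2 ^ j * (2 ^ i * (Tk k)^[i] b - 3 ^ odds k i b * b) =
        2 ^ j * 3 ^ odds k i b * b - 2 ^ i * 3 ^ odds k j b' * b' := by
      rw [h]; ring
    rw [e] at h4
    exact hqk.trans h4
  rw [diff_eq] at h3
  exact (cop6 hq h5 _ _).dvd_of_dvd_mul_left h3

/-- The same for cycles. -/
theorem cycle_dvd {k : ℤ} (hk : k % 2 = 1) {q : ℕ} (hqk : (q : ℤ) ∣ k)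
    {x : ℤ} (hx : IsCoprime x k) {p : ℕ} (h : (Tk k)^[p] x = x) :
    (q : ℤ) ∣ Gf (p : ℤ) (-(odds k p x : ℤ)) 1 1 := by
  have h1 := cong hk p x
  rw [h] at h1
  have e : 2 ^ p * x - 3 ^ odds k p x * x = (2 ^ p - 3 ^ odds k p x) * x := by ring
  rw [e] at h1
  have h2 : IsCoprime (q : ℤ) x := (hx.of_isCoprime_of_dvd_right hqk).symm
  have h3 := h2.dvd_of_dvd_mul_right (hqk.trans h1)
  unfold Gf
  have e1 : ((p : ℕ) : ℤ).toNat = p := by omega
  have e2 : (-((p : ℕ) : ℤ)).toNat = 0 := by omega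
  have e3 : (-((odds k p x : ℕ) : ℤ)).toNat = 0 := by omega
  have e4 : (-(-((odds k p x : ℕ) : ℤ))).toNat = odds k p x := by omega
  rw [e1, e2, e3, e4]
  simpa using h3

theorem two_ne_three {p o : ℕ} (hp : 1 ≤ p) : (2 : ℤ) ^ p ≠ 3 ^ o := by
  intro h
  have h1 : (2 : ℤ) ∣ 3 ^ o := by
    rw [← h]
    exact dvd_pow_self 2 (by omega)
  have h2 : Prime (2 : ℤ) := Int.prime_two
  have h3 := h2.dvd_of_dvd_pow h1
  norm_num at h3

theorem Gf_cycle_ne {p o : ℕ} (hp : 1 ≤ p) : Gf (p : ℤ) (-(o : ℤ)) 1 1 ≠ 0 := by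
  unfold Gf
  have e1 : ((p : ℕ) : ℤ).toNat = p := by omega
  have e2 : (-((p : ℕ) : ℤ)).toNat = 0 := by omega
  have e3 : (-((o : ℕ) : ℤ)).toNat = 0 := by omega
  have e4 : (-(-((o : ℕ) : ℤ))).toNat = o := by omega
  rw [e1, e2, e3, e4]
  intro h
  apply two_ne_three hp (o := o)
  linarith

/-- All coincidences up to `P` are algebraic. -/
def Rigid (k : ℤ) (P : ℕ) : Prop :=
  (∀ (b b' : ℤ) (i j : ℕ), |b| ≤ P → |b'| ≤ P → i ≤ P → j ≤ P → (Tk k)^[i] b = (Tk k)^[j] b' →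
    2 ^ j * 3 ^ odds k i b * b = 2 ^ i * 3 ^ odds k j b' * b') ∧
  ∀ (x : ℤ) (p : ℕ), IsCoprime x k → 1 ≤ p → p ≤ P → (Tk k)^[p] x ≠ x

/-- The exceptional primes. -/
noncomputable def Bad (P Y : ℕ) : Finset ℕ :=
  (Icc (-(P : ℤ)) P ×ˢ (Icc (-(P : ℤ)) P ×ˢ (Icc (-(P : ℤ)) P ×ˢ Icc (-(P : ℤ)) P))).biUnion
    fun t => ((Gf t.1 t.2.1 t.2.2.1 t.2.2.2).natAbs.primeFactors.filter (Y < ·))

theorem mem_Bad {P Y q : ℕ} {u v b b' : ℤ} (hq : q.Prime) (hqY : Y < q) (hu : |u| ≤ P) (hv : |v| ≤ P)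
    (hb : |b| ≤ P) (hb' : |b'| ≤ P) (h0 : Gf u v b b' ≠ 0) (h : (q : ℤ) ∣ Gf u v b b') : q ∈ Bad P Y := by
  unfold Bad
  rw [mem_biUnion]
  refine ⟨(u, v, b, b'), ?_, ?_⟩
  · rw [abs_le] at hu hv hb hb'
    rw [mem_product, mem_product, mem_product, mem_Icc, mem_Icc, mem_Icc, mem_Icc]
    exact ⟨hu, hv, hb, hb'⟩
  · rw [mem_filter, Nat.mem_primeFactors]
    exact ⟨⟨hq, Int.natCast_dvd.1 h, Int.natAbs_ne_zero.2 h0⟩, hqY⟩

theorem rigid_of {k : ℤ} (hk : k % 2 = 1) {P Y q : ℕ} (hP : 1 ≤ P) (hq : q.Prime) (h5 : 5 ≤ q) (hqY : Y < q)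
    (hqk : (q : ℤ) ∣ k) (hB : q ∉ Bad P Y) : Rigid k P := by
  constructor
  · intro b b' i j hb hb' hi hj h
    have h1 := meet_dvd hk hq h5 hqk h
    have ho := odds_le k i b
    have ho' := odds_le k j b'
    have h2 : Gf ((j : ℤ) - i) ((odds k i b : ℤ) - odds k j b') b b' = 0 := by
      by_contra h0
      apply hB
      refine mem_Bad hq hqY ?_ ?_ hb hb' h0 h1
      · rw [abs_le]; omega
      · rw [abs_le]; omega
    have h3 := diff_eq i j (odds k i b) (odds k j b') b b'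
    rw [h2, mul_zero] at h3
    linarith
  · intro x p hx hp hpP h
    have h1 := cycle_dvd hk hqk hx h
    apply hB
    refine mem_Bad hq hqY ?_ ?_ ?_ ?_ (Gf_cycle_ne hp) h1
    · rw [abs_of_nonneg (by positivity)]; exact_mod_cast hpP
    · rw [abs_neg, abs_of_nonneg (by positivity)]
      exact_mod_cast (odds_le k p x).trans hpP
    · rw [abs_one]; exact_mod_cast hP
    · rw [abs_one]; exact_mod_cast hP

theorem card_Icc_P (P : ℕ) : (Icc (-(P : ℤ)) P).card = 2 * P + 1 := by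
  rw [Int.card_Icc]
  omega

theorem log_Gf {u v b b' : ℤ} {P : ℕ} {B : ℝ} (hu : |u| ≤ P) (hv : |v| ≤ P)
    (hb : |(b : ℝ)| + |(b' : ℝ)| ≤ B) (h0 : Gf u v b b' ≠ 0) :
    Real.log |(Gf u v b b' : ℝ)| ≤ P * 2 + Real.log B := by
  have h1 := Gf_size (b := b) (b' := b') hu hv
  have h2 : |(Gf u v b b' : ℝ)| ≤ 6 ^ P * (|(b : ℝ)| + |(b' : ℝ)|) := by exact_mod_cast h1
  have h3 : (0 : ℝ) < |(Gf u v b b' : ℝ)| := abs_pos.2 (by exact_mod_cast h0)
  have hB : 0 < B := by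
    have : 0 < 6 ^ P * (|(b : ℝ)| + |(b' : ℝ)|) := h3.trans_le h2
    have h4 : 0 < |(b : ℝ)| + |(b' : ℝ)| := by
      by_contra hcon
      have : |(b : ℝ)| + |(b' : ℝ)| ≤ 0 := not_lt.1 hcon
      have h6 : (0 : ℝ) < 6 ^ P := by positivity
      nlinarith
    linarith
  have h4 : |(Gf u v b b' : ℝ)| ≤ 6 ^ P * B := h2.trans (mul_le_mul_of_nonneg_left hb (by positivity))
  have h5 := Real.log_le_log h3 h4
  rw [Real.log_mul (by positivity) hB.ne', Real.log_pow] at h5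
  have h6 : Real.log 6 ≤ 2 := by
    have h7 : Real.log 6 ≤ Real.log (Real.exp 1 ^ 2) := by
      apply Real.log_le_log (by norm_num)
      have := Real.exp_one_gt_d9
      nlinarith
    rw [Real.log_pow, Real.log_exp] at h7
    push_cast at h7
    linarith
  have h7 : (P : ℝ) * Real.log 6 ≤ P * 2 := mul_le_mul_of_nonneg_left h6 (Nat.cast_nonneg P)
  linarith

theorem card_Bad {P Y : ℕ} (hP : 1 ≤ P) (hY : 1 ≤ Y) :
    ((Bad P Y).card : ℝ) * Real.log Y ≤ 324 * (P : ℝ) ^ 5 := by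
  have hPr : (1 : ℝ) ≤ P := by exact_mod_cast hP
  have h1 := biUnion_primes
    (Icc (-(P : ℤ)) P ×ˢ (Icc (-(P : ℤ)) P ×ˢ (Icc (-(P : ℤ)) P ×ˢ Icc (-(P : ℤ)) P)))
    (fun t => Gf t.1 t.2.1 t.2.2.1 t.2.2.2) hY (H := 4 * P) (by positivity) (by
      rintro ⟨u, v, b, b'⟩ ht h0
      rw [mem_product, mem_product, mem_product, mem_Icc, mem_Icc, mem_Icc, mem_Icc] at ht
      obtain ⟨hu, hv, hb, hb'⟩ := ht
      simp only at hu hv hb hb' h0 ⊢
      have h2 : |(b : ℝ)| + |(b' : ℝ)| ≤ 2 * P := by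
        have h3 : |(b : ℝ)| ≤ P := by
          rw [abs_le]; exact ⟨by exact_mod_cast hb.1, by exact_mod_cast hb.2⟩
        have h4 : |(b' : ℝ)| ≤ P := by
          rw [abs_le]; exact ⟨by exact_mod_cast hb'.1, by exact_mod_cast hb'.2⟩
        linarith
      refine (log_Gf (abs_le.2 hu) (abs_le.2 hv) h2 h0).trans ?_
      have h3 := Real.log_le_sub_one_of_pos (show (0 : ℝ) < 2 * P by positivity)
      linarith)
  refine h1.trans ?_
  rw [card_product, card_product, card_product, card_Icc_P]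
  push_cast
  have h2 : (2 * (P : ℝ) + 1) ≤ 3 * P := by linarith
  have h3 : (2 * (P : ℝ) + 1) * ((2 * P + 1) * ((2 * P + 1) * (2 * P + 1))) ≤ (3 * P) ^ 4 := by
    have h4 : (2 * (P : ℝ) + 1) ^ 4 ≤ (3 * P) ^ 4 := pow_le_pow_left₀ (by positivity) h2 4
    refine le_trans (le_of_eq ?_) h4
    ring
  calc (2 * (P : ℝ) + 1) * ((2 * P + 1) * ((2 * P + 1) * (2 * P + 1))) * (4 * P)
      ≤ (3 * P) ^ 4 * (4 * P) := mul_le_mul_of_nonneg_right h3 (by positivity)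
    _ = 324 * (P : ℝ) ^ 5 := by ring

end Pool.Agent.Y967.MD
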